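import Mathlib

/-! Smooth and rough parts, squarefree unitary parts, bins of primes. -/

namespace Pool.Agent.Lib.MP_28260b_nt.Sp

open Finset ArithmeticFunction ArithmeticFunction.sigma

/-- The part of `v` made of primes at most `R`. -/
def sm (R v : ℕ) : ℕ := v.factorization.prod fun p k => if p ≤ R then p ^ k else 1

/-- The part of `v` made of primes larger than `R`. -/
def ro (R v : ℕ) : ℕ := v.factorization.prod fun p k => if p ≤ R then 1 else p ^ k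

lemma sm_mul (R : ℕ) {a b : ℕ} (ha : a ≠ 0) (hb : b ≠ 0) : sm R (a * b) = sm R a * sm R b := by
  unfold sm
  rw [Nat.factorization_mul ha hb, Finsupp.prod_add_index']
  · intro p; simp
  · intro p i j; split_ifs <;> simp [pow_add]

lemma ro_mul (R : ℕ) {a b : ℕ} (ha : a ≠ 0) (hb : b ≠ 0) : ro R (a * b) = ro R a * ro R b := by
  unfold ro
  rw [Nat.factorization_mul ha hb, Finsupp.prod_add_index']
  · intro p; simp
  · intro p i j; split_ifs <;> simp [pow_add]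

lemma sm_mul_ro (R : ℕ) {v : ℕ} (hv : v ≠ 0) : sm R v * ro R v = v := by
  unfold sm ro
  rw [← Finsupp.prod_mul]
  conv_rhs => rw [← Nat.prod_factorization_pow_eq_self hv]
  refine Finsupp.prod_congr fun p _ => ?_
  split_ifs <;> simp

lemma sm_one (R : ℕ) : sm R 1 = 1 := by simp [sm]

lemma sm_pos (R v : ℕ) : 0 < sm R v := by
  unfold sm Finsupp.prod
  refine prod_pos fun p hp => ?_
  have := (Nat.prime_of_mem_primeFactors (by simpa using hp)).pos
  beta_reduce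
  split_ifs <;> positivity

lemma ro_pos (R v : ℕ) : 0 < ro R v := by
  unfold ro Finsupp.prod
  refine prod_pos fun p hp => ?_
  have := (Nat.prime_of_mem_primeFactors (by simpa using hp)).pos
  beta_reduce
  split_ifs <;> positivity

lemma ro_dvd_self (R : ℕ) {v : ℕ} (hv : v ≠ 0) : ro R v ∣ v :=
  ⟨sm R v, by rw [mul_comm, sm_mul_ro R hv]⟩

lemma ro_dvd (R : ℕ) {a v : ℕ} (hv : v ≠ 0) (h : a ∣ v) : ro R a ∣ ro R v := by
  obtain ⟨b, rfl⟩ := h
  rw [ro_mul R (left_ne_zero_of_mul hv) (right_ne_zero_of_mul hv)]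
  exact Dvd.intro _ rfl

lemma prime_dvd_ro {R v r : ℕ} (hr : r.Prime) (h : r ∣ ro R v) : R < r := by
  unfold ro Finsupp.prod at h
  obtain ⟨p, hp, h2⟩ := (Prime.dvd_finsetProd_iff hr.prime _).1 h
  have hp' := Nat.prime_of_mem_primeFactors (by simpa using hp : p ∈ v.primeFactors)
  beta_reduce at h2
  split_ifs at h2 with h3
  · exact absurd (Nat.dvd_one.1 h2) hr.ne_one
  · have := (Nat.prime_dvd_prime_iff_eq hr hp').1 (hr.dvd_of_dvd_pow h2)
    omega

lemma prime_dvd_sm {R v r : ℕ} (hr : r.Prime) (h : r ∣ sm R v) : r ≤ R := by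
  unfold sm Finsupp.prod at h
  obtain ⟨p, hp, h2⟩ := (Prime.dvd_finsetProd_iff hr.prime _).1 h
  have hp' := Nat.prime_of_mem_primeFactors (by simpa using hp : p ∈ v.primeFactors)
  beta_reduce at h2
  split_ifs at h2 with h3
  · have := (Nat.prime_dvd_prime_iff_eq hr hp').1 (hr.dvd_of_dvd_pow h2)
    omega
  · exact absurd (Nat.dvd_one.1 h2) hr.ne_one

lemma sm_prod (R : ℕ) (s : Finset ℕ) (g : ℕ → ℕ) (hg : ∀ p ∈ s, g p ≠ 0) :
    sm R (∏ p ∈ s, g p) = ∏ p ∈ s, sm R (g p) := by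
  induction s using Finset.induction_on with
  | empty => simp [sm_one]
  | insert p s hp ih =>
    rw [prod_insert hp, prod_insert hp, sm_mul R (hg p (mem_insert_self _ _))
      (prod_ne_zero_iff.2 fun q hq => hg q (mem_insert_of_mem hq)),
      ih fun q hq => hg q (mem_insert_of_mem hq)]

lemma sig_mul {a b : ℕ} (h : a.Coprime b) : σ 1 (a * b) = σ 1 a * σ 1 b :=
  isMultiplicative_sigma.map_mul_of_coprime h

lemma sig_prime {p : ℕ} (hp : p.Prime) : σ 1 p = p + 1 := by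
  rw [sigma_one_apply, hp.sum_divisors]

lemma sig_sqf {D : ℕ} (hD : Squarefree D) : σ 1 D = ∏ p ∈ D.primeFactors, (p + 1) := by
  rw [← isMultiplicative_sigma.prod_primeFactors hD]
  exact prod_congr rfl fun p hp => sig_prime (Nat.prime_of_mem_primeFactors hp)

lemma le_sig (n : ℕ) : n ≤ σ 1 n := by
  rcases Nat.eq_zero_or_pos n with rfl | hn
  · simp
  rw [sigma_one_apply]
  exact single_le_sum (f := fun d => d) (fun _ _ => Nat.zero_le _)
    (Nat.mem_divisors_self n hn.ne')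

lemma sig_ne {n : ℕ} (hn : n ≠ 0) : σ 1 n ≠ 0 := by
  have := le_sig n
  omega

lemma sig_le (n : ℕ) : σ 1 n ≤ n ^ 2 := by
  rw [sigma_one_apply]
  calc _ ≤ #n.divisors • n := sum_le_card_nsmul _ _ _ fun d hd => Nat.divisor_le hd
    _ ≤ n * n := by
        rw [smul_eq_mul]
        exact Nat.mul_le_mul_right _ (Nat.card_divisors_le_self n)
    _ = _ := by ring

lemma cop_of_sqf {N D : ℕ} (hN : Squarefree N) (h : D ∣ N) : D.Coprime (N / D) := by
  obtain ⟨k, rfl⟩ := h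
  have hD : 0 < D := Nat.pos_of_ne_zero (left_ne_zero_of_mul hN.ne_zero)
  rw [Nat.mul_div_cancel_left _ hD]
  exact Nat.coprime_of_squarefree_mul hN

/-- A divisor of the squarefree unitary part is unitary. -/
lemma unit_of {s N D : ℕ} (hN : Squarefree N) (hs : s.Coprime N) (h : D ∣ N) :
    ∃ k, s * N = D * k ∧ D.Coprime k := by
  refine ⟨s * (N / D), ?_, Nat.Coprime.mul_right (hs.symm.coprime_dvd_left h) (cop_of_sqf hN h)⟩
  obtain ⟨k, rfl⟩ := h
  have hD : 0 < D := Nat.pos_of_ne_zero (left_ne_zero_of_mul hN.ne_zero)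
  rw [Nat.mul_div_cancel_left _ hD]; ring

lemma sig_dvd {s N D : ℕ} (hN : Squarefree N) (hs : s.Coprime N) (h : D ∣ N) :
    σ 1 D ∣ σ 1 (s * N) := by
  obtain ⟨k, h1, h2⟩ := unit_of hN hs h
  rw [h1, sig_mul h2]
  exact Dvd.intro _ rfl

lemma split (n Y : ℕ) (hn : 0 < n) : (∃ b, Y < b ∧ b ^ 2 ∣ n) ∨
    ∃ s N, n = s * N ∧ s ≤ Y ^ 3 ∧ Squarefree N ∧ s.Coprime N := by
  obtain ⟨a, b, h1, h2⟩ := Nat.sq_mul_squarefree n
  rcases Nat.lt_or_ge Y b with h | h
  · exact Or.inl ⟨b, h, ⟨a, h1.symm⟩⟩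
  right
  have hb : 0 < b := Nat.pos_of_ne_zero (by rintro rfl; simp at h1; omega)
  obtain ⟨a', ha'⟩ := Nat.gcd_dvd_left a b
  have hs : Squarefree (a.gcd b * a') := ha' ▸ h2
  have hc : (a.gcd b).Coprime a' := Nat.coprime_of_squarefree_mul hs
  have hb' : b.Coprime a' := by
    have h3 : b.gcd a' ∣ a.gcd b :=
      Nat.dvd_gcd ((Nat.gcd_dvd_right _ _).trans (Dvd.intro_left _ ha'.symm)) (Nat.gcd_dvd_left _ _)
    exact Nat.eq_one_of_dvd_coprimes hc h3 (Nat.gcd_dvd_right _ _)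
  refine ⟨b ^ 2 * a.gcd b, a', ?_, ?_, hs.of_mul_right, ?_⟩
  · rw [mul_assoc, ← ha', h1]
  · have := Nat.gcd_le_right a hb
    calc _ ≤ b ^ 2 * b := Nat.mul_le_mul_left _ this
      _ = b ^ 3 := by ring
      _ ≤ _ := Nat.pow_le_pow_left h 3
  · exact Nat.Coprime.mul_left (hb'.pow_left 2) hc

lemma mindiv {N W c : ℕ} (hW : W ≤ N) (hc : 1 ≤ c) (hW1 : 1 ≤ W)
    (hp : ∀ p, p.Prime → p ∣ N → p ≤ c) : ∃ D, D ∣ N ∧ W ≤ D ∧ D ≤ c * W := by
  have hex : ∃ D, D ∣ N ∧ W ≤ D := ⟨N, dvd_rfl, hW⟩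
  obtain ⟨h1, h2⟩ := Nat.find_spec hex
  refine ⟨Nat.find hex, h1, h2, ?_⟩
  set D := Nat.find hex with hD
  rcases eq_or_ne D 1 with h | h
  · rw [h]; exact Nat.mul_pos hc hW1
  obtain ⟨k, hk⟩ := Nat.minFac_dvd D
  have hr := Nat.minFac_prime h
  have hD0 : 0 < D := by omega
  have hk0 : 0 < k := Nat.pos_of_ne_zero (by rintro rfl; simp at hk; omega)
  have hkD : k < D := by have := hr.two_le; nlinarith
  have h3 := Nat.find_min hex hkD
  have h4 : k < W := by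
    by_contra h5
    exact h3 ⟨(Dvd.intro_left _ hk.symm).trans h1, by omega⟩
  rw [hk]
  exact Nat.mul_le_mul (hp _ hr ((Nat.minFac_dvd D).trans h1)) h4.le

lemma middiv {N V P : ℕ} (hV : V ≤ N) (hV1 : 1 ≤ V) (hP : V ^ 2 ≤ P)
    (hp : ∀ p, p.Prime → p ∣ N → p ≤ P) : ∃ D, D ∣ N ∧ V ≤ D ∧ D ≤ P := by
  by_cases h : ∃ p, p.Prime ∧ p ∣ N ∧ V ≤ p
  · obtain ⟨p, h1, h2, h3⟩ := h
    exact ⟨p, h2, h3, hp p h1 h2⟩
  · obtain ⟨D, h1, h2, h3⟩ := mindiv hV hV1 hV1 fun p h1 h2 => by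
      by_contra h3
      exact h ⟨p, h1, h2, by omega⟩
    exact ⟨D, h1, h2, by nlinarith⟩

lemma div_gcd_dvd {W a b : ℕ} (hW : W ≠ 0) (h : W ∣ a * b) : W / W.gcd b ∣ a := by
  have hg : 0 < W.gcd b := Nat.gcd_pos_of_pos_left _ (Nat.pos_of_ne_zero hW)
  refine (Nat.coprime_div_gcd_div_gcd hg).dvd_of_dvd_mul_right ?_
  refine Nat.dvd_of_mul_dvd_mul_right hg ?_
  rw [Nat.div_mul_cancel (Nat.gcd_dvd_left _ _), mul_assoc,
    Nat.div_mul_cancel (Nat.gcd_dvd_right _ _)]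
  exact h

lemma bins {V P u : ℕ} (hV1 : 1 ≤ V) (hP : V ^ 2 ≤ P) (hu : u ≠ 0) (j : ℕ) :
    ∀ N W : ℕ, Squarefree N → (∀ p, p.Prime → p ∣ N → p ≤ P) → N ≤ V ^ j → W ∣ u * σ 1 N →
      ∃ D G, D ∣ N ∧ D ≤ P ∧ G ∣ W ∧ G ∣ σ 1 D ∧ W ≤ u * G ^ j := by
  have hP1 : V ≤ P := by nlinarith
  induction j with
  | zero =>
    intro N W hN _ h1 h2
    have : N = 1 := by have := hN.ne_zero; simp at h1; omega
    subst this
    refine ⟨1, 1, dvd_rfl, by omega, one_dvd _, one_dvd _, ?_⟩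
    simpa using Nat.le_of_dvd (Nat.pos_of_ne_zero hu) (by simpa using h2)
  | succ j ih =>
    intro N W hN hp h1 h2
    have hW : W ≠ 0 := by
      rintro rfl
      exact mul_ne_zero hu (sig_ne hN.ne_zero) (Nat.eq_zero_of_zero_dvd h2)
    rcases Nat.lt_or_ge N V with h | h
    · have h3 := Nat.le_of_dvd (Nat.pos_of_ne_zero hu) (div_gcd_dvd hW h2)
      have hg : 0 < W.gcd (σ 1 N) := Nat.gcd_pos_of_pos_left _ (Nat.pos_of_ne_zero hW)
      refine ⟨N, W.gcd (σ 1 N), dvd_rfl, by omega, Nat.gcd_dvd_left _ _, Nat.gcd_dvd_right _ _, ?_⟩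
      calc W = W / W.gcd (σ 1 N) * W.gcd (σ 1 N) :=
            (Nat.div_mul_cancel (Nat.gcd_dvd_left _ _)).symm
        _ ≤ _ := Nat.mul_le_mul h3 (Nat.le_self_pow (by omega) _)
    · obtain ⟨D, h3, h4, h5⟩ := middiv h hV1 hP hp
      have hc := cop_of_sqf hN h3
      obtain ⟨k, rfl⟩ := h3
      rw [Nat.mul_div_cancel_left _ (by omega : 0 < D)] at hc
      have hk : k ≤ V ^ j := by
        refine Nat.le_of_mul_le_mul_left (c := V) ?_ hV1
        calc V * k ≤ D * k := Nat.mul_le_mul_right _ h4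
          _ ≤ _ := by rw [pow_succ'] at h1; exact h1
      have h6 : W / W.gcd (σ 1 D) ∣ u * σ 1 k := by
        refine div_gcd_dvd hW ?_
        rw [sig_mul hc] at h2
        rwa [mul_assoc, mul_comm (σ 1 k)]
      obtain ⟨D', G', h7, h8, h9, h10, h11⟩ := ih k _ hN.of_mul_right
        (fun p h1 h2 => hp p h1 (h2.mul_left _)) hk h6
      have e : W = W / W.gcd (σ 1 D) * W.gcd (σ 1 D) :=
        (Nat.div_mul_cancel (Nat.gcd_dvd_left _ _)).symm
      rcases le_total G' (W.gcd (σ 1 D)) with h12 | h12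
      · refine ⟨D, W.gcd (σ 1 D), Dvd.intro _ rfl, h5, Nat.gcd_dvd_left _ _,
          Nat.gcd_dvd_right _ _, ?_⟩
        calc W = _ := e
          _ ≤ u * W.gcd (σ 1 D) ^ j * W.gcd (σ 1 D) := Nat.mul_le_mul_right _
              (h11.trans (Nat.mul_le_mul_left _ (Nat.pow_le_pow_left h12 j)))
          _ = _ := by ring
      · refine ⟨D', G', h7.mul_left _, h8, h9.trans (Nat.div_dvd_of_dvd (Nat.gcd_dvd_left _ _)),
          h10, ?_⟩
        calc W = _ := e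
          _ ≤ u * G' ^ j * G' := Nat.mul_le_mul h11 h12
          _ = _ := by ring

end Pool.Agent.Lib.MP_28260b_nt.Sp
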