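import Pool.Agent.Lib.MP_28260b_nt.Sp.A
import Pool.Agent.Lib.MP_28260b_nt.BV1

/-! Counting: square divisors, two large primes, one very large prime. -/

namespace Pool.Agent.Lib.MP_28260b_nt.Sp

open Finset ArithmeticFunction ArithmeticFunction.sigma

lemma cover {α β : Type} (S : Finset α) (I : Finset β) (P : β → α → Prop) (c : β → ℝ)
    (h1 : ∀ n ∈ S, ∃ i ∈ I, P i n)
    (h2 : ∀ i ∈ I, ∀ T : Finset α, (∀ n ∈ T, n ∈ S ∧ P i n) → (#T : ℝ) ≤ c i) :
    (#S : ℝ) ≤ ∑ i ∈ I, c i := by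
  classical
  calc (#S : ℝ) ≤ (#(I.biUnion fun i => S.filter (P i)) : ℕ) := by
        refine Nat.cast_le.2 (card_le_card fun n hn => ?_)
        obtain ⟨i, hi, h⟩ := h1 n hn
        exact mem_biUnion.2 ⟨i, hi, mem_filter.2 ⟨hn, h⟩⟩
    _ ≤ (∑ i ∈ I, #(S.filter (P i)) : ℕ) := Nat.cast_le.2 card_biUnion_le
    _ ≤ _ := by
        push_cast
        exact sum_le_sum fun i hi => h2 i hi _ fun n hn => mem_filter.1 hn

lemma spaced (S : Finset ℕ) (X c D : ℕ) (hD : 0 < D) (h1 : ∀ k ∈ S, k ≤ X)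
    (h2 : ∀ k ∈ S, ∀ k' ∈ S, k < k' → k * c + D ≤ k' * c) : (#S : ℝ) ≤ X * c / D + 1 := by
  have key : ∀ k ∈ S, ∀ k' ∈ S, k < k' → k * c / D < k' * c / D := fun k hk k' hk' h => by
    have := Nat.div_le_div_right (c := D) (h2 k hk k' hk' h)
    rw [Nat.add_div_right _ hD] at this
    omega
  have h3 : #S ≤ #(range (X * c / D + 1)) := by
    refine card_le_card_of_injOn (fun k => k * c / D) (fun k hk => ?_) fun k hk k' hk' h => ?_
    · have := Nat.div_le_div_right (c := D) (Nat.mul_le_mul_right c (h1 k hk))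
      simp only [coe_range, Set.mem_Iio]
      omega
    · rcases lt_trichotomy k k' with h4 | h4 | h4
      · exact absurd h (key k hk k' hk' h4).ne
      · exact h4
      · exact absurd h (key k' hk' k hk h4).ne'
  rw [card_range] at h3
  have h4 : ((X * c / D : ℕ) : ℝ) ≤ (X * c : ℕ) / D := Nat.cast_div_le
  have h5 : (#S : ℝ) ≤ (X * c / D + 1 : ℕ) := Nat.cast_le.2 h3
  push_cast at h4 h5 ⊢
  linarith

lemma mult_count (S : Finset ℕ) (X d : ℕ) (h : ∀ n ∈ S, 0 < n ∧ n ≤ X ∧ d ∣ n) :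
    (#S : ℝ) ≤ X / d := by
  have h1 : #S ≤ #((Ioc 0 X).filter fun n => d ∣ n) :=
    card_le_card fun n hn => mem_filter.2 ⟨mem_Ioc.2 ⟨(h n hn).1, (h n hn).2.1⟩, (h n hn).2.2⟩
  rw [Nat.Ioc_filter_dvd_card_eq_div] at h1
  exact (Nat.cast_le.2 h1).trans Nat.cast_div_le

lemma inv_sq_sum (Y X : ℕ) (hY : 0 < Y) : ∑ b ∈ Ioc Y X, ((b : ℝ) ^ 2)⁻¹ ≤ (Y : ℝ)⁻¹ := by
  rcases Nat.lt_or_ge X Y with h | h
  · rw [Ioc_eq_empty (by omega)]; simp
  · have := sum_Ioc_inv_sq_le_sub (α := ℝ) hY.ne' h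
    have h2 : (0 : ℝ) ≤ (X : ℝ)⁻¹ := by positivity
    linarith

lemma sq_count (S : Finset ℕ) (X Y : ℕ) (hY : 0 < Y)
    (h : ∀ n ∈ S, 0 < n ∧ n ≤ X ∧ ∃ b, Y < b ∧ b ^ 2 ∣ n) : (#S : ℝ) ≤ X / Y := by
  refine (cover S (Ioc Y X) (fun b n => b ^ 2 ∣ n) (fun b => X * ((b : ℝ) ^ 2)⁻¹) ?_ ?_).trans ?_
  · intro n hn
    obtain ⟨h1, h2, b, h3, h4⟩ := h n hn
    have := Nat.le_of_dvd h1 h4
    exact ⟨b, mem_Ioc.2 ⟨h3, by nlinarith⟩, h4⟩
  · intro b _ T hT
    have := mult_count T X (b ^ 2) fun n hn =>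
      ⟨(h n (hT n hn).1).1, (h n (hT n hn).1).2.1, (hT n hn).2⟩
    simpa [div_eq_mul_inv] using this
  · rw [← mul_sum, div_eq_mul_inv]
    exact mul_le_mul_of_nonneg_left (inv_sq_sum Y X hY) (by positivity)

/-- Two large primes, fixed parts that are not friends. -/
def CA (l a b n : ℕ) : Prop := ∃ p q : ℕ, n = a * p ∧ n + l = b * q ∧
  σ 1 a * (p + 1) = σ 1 b * (q + 1) ∧ σ 1 a * b ≠ σ 1 b * a

lemma caseA (S : Finset ℕ) (l Z : ℕ)
    (h : ∀ n ∈ S, ∃ a b, 0 < a ∧ 0 < b ∧ a * b ≤ Z ∧ CA l a b n) :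
    (#S : ℝ) ≤ Z * (1 + Real.log Z) := by
  refine (cover S (Ioc 0 Z) (fun a n => ∃ b, 0 < b ∧ a * b ≤ Z ∧ CA l a b n)
    (fun a => Z * (1 / a)) ?_ ?_).trans ?_
  · intro n hn
    obtain ⟨a, b, h1, h2, h3, h4⟩ := h n hn
    exact ⟨a, mem_Ioc.2 ⟨h1, by nlinarith⟩, b, h2, h3, h4⟩
  · intro a ha T hT
    have ha0 := (mem_Ioc.1 ha).1
    refine (cover T (Ioc 0 (Z / a)) (fun b n => CA l a b n) (fun _ => 1) ?_ ?_).trans ?_
    · intro n hn
      obtain ⟨b, h1, h2, h3⟩ := (hT n hn).2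
      exact ⟨b, mem_Ioc.2 ⟨h1, (Nat.le_div_iff_mul_le ha0).2 (by linarith)⟩, h3⟩
    · intro b _ U hU
      have : #U ≤ 1 := card_le_one.2 fun n hn n' hn' => by
        obtain ⟨p, q, h1, h2, h3, h4⟩ := (hU n hn).2
        obtain ⟨p', q', h1', h2', h3', -⟩ := (hU n' hn').2
        have h5 : ((σ 1 a * b : ℕ) : ℤ) - (σ 1 b * a : ℕ) ≠ 0 :=
          sub_ne_zero.2 (by exact_mod_cast h4)
        have h6 : (((σ 1 a * b : ℕ) : ℤ) - (σ 1 b * a : ℕ)) * ((p : ℤ) - p') = 0 := by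
          zify at h1 h2 h3 h1' h2' h3'
          push_cast
          linear_combination (b : ℤ) * (h3 - h3') - (σ 1 b : ℤ) * (h2 - h2' - h1 + h1')
        have h7 : p = p' := by
          have := (mul_eq_zero.1 h6).resolve_left h5
          omega
        rw [h1, h1', h7]
      exact_mod_cast this
    · have : ((Z / a : ℕ) : ℝ) ≤ Z / a := Nat.cast_div_le
      simpa [div_eq_mul_inv] using this
  · rw [← mul_sum]
    exact mul_le_mul_of_nonneg_left (harm_le Z) (by positivity)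

lemma caseB (S : Finset ℕ) (X W W' a u : ℕ) (t : ℤ) (hu : 0 < u) (ht : t ≠ 0) (hW : 0 < W)
    (h : ∀ N ∈ S, N ≤ X ∧ (a * σ 1 N : ℤ) = u * (N + t) ∧
      ∃ D k, N = D * k ∧ D.Coprime k ∧ W < D ∧ D ≤ W') :
    (#S : ℝ) ≤ X * (u ^ 2 * t.natAbs : ℕ) / W + W' := by
  set c := u ^ 2 * t.natAbs with hc
  refine (cover S (Ioc W W') (fun D N => ∃ k, N = D * k ∧ D.Coprime k)
    (fun D => X * c * ((D : ℝ) ^ 2)⁻¹ + 1) ?_ ?_).trans ?_
  · intro N hN
    obtain ⟨-, -, D, k, h1, h2, h3, h4⟩ := h N hN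
    exact ⟨D, mem_Ioc.2 ⟨h3, h4⟩, k, h1, h2⟩
  · intro D hD T hT
    have hD0 : 0 < D := by have := (mem_Ioc.1 hD).1; omega
    have hdv : ∀ N ∈ T, N = D * (N / D) ∧ ((σ 1 D : ℕ) : ℤ) ∣ u * (N + t) := fun N hN => by
      obtain ⟨h1, k, h2, h3⟩ := hT N hN
      refine ⟨by rw [h2, Nat.mul_div_cancel_left _ hD0], ?_⟩
      rw [← (h N h1).2.1, h2, sig_mul h3]
      push_cast
      exact ⟨a * σ 1 k, by ring⟩
    have e : #T = #(T.image fun N => N / D) :=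
      (card_image_of_injOn fun N hN N' hN' h => by
        rw [(hdv N hN).1, (hdv N' hN').1]; exact congrArg _ h).symm
    rw [e]
    refine (spaced _ (X / D) c D hD0 ?_ ?_).trans ?_
    · intro k hk
      obtain ⟨N, hN, rfl⟩ := mem_image.1 hk
      exact Nat.div_le_div_right (h N (hT N hN).1).1
    · intro k hk k' hk' hlt
      obtain ⟨N, hN, h1⟩ := mem_image.1 hk
      obtain ⟨N', hN', h1'⟩ := mem_image.1 hk'
      obtain ⟨h2, h3⟩ := hdv N hN
      obtain ⟨h2', h3'⟩ := hdv N' hN'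
      rw [h1] at h2
      rw [h1'] at h2'
      obtain ⟨d, rfl⟩ := Nat.exists_eq_add_of_lt hlt
      have h4 : σ 1 D ∣ u * (d + 1) * D := by
        have := dvd_sub h3' h3
        have e2 : (u : ℤ) * (N' + t) - u * (N + t) = (u * (d + 1) * D : ℕ) := by
          rw [h2, h2']; push_cast; ring
        rw [e2] at this
        exact Int.natCast_dvd_natCast.1 this
      have h5 := Nat.le_of_dvd (by positivity) (div_gcd_dvd (sig_ne hD0.ne') h4)
      have h6 : (σ 1 D).gcd D ∣ u * t.natAbs := by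
        have h7 : (((σ 1 D).gcd D : ℕ) : ℤ) ∣ u * (N + t) :=
          (Int.natCast_dvd_natCast.2 (Nat.gcd_dvd_left _ _)).trans h3
        have h8 : (((σ 1 D).gcd D : ℕ) : ℤ) ∣ u * N := by
          rw [h2]; push_cast
          exact ((Int.natCast_dvd_natCast.2 (Nat.gcd_dvd_right _ _)).mul_right _).mul_left _
        have h9 := dvd_sub h7 h8
        rw [show (u : ℤ) * (N + t) - u * N = u * t by ring] at h9
        simpa [Int.natAbs_mul] using Int.natAbs_dvd_natAbs.2 h9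
      have h10 := Nat.le_of_dvd (Nat.mul_pos hu (Int.natAbs_pos.2 ht)) h6
      have h11 : D ≤ (d + 1) * c :=
        calc D ≤ σ 1 D := le_sig D
          _ = σ 1 D / (σ 1 D).gcd D * (σ 1 D).gcd D :=
            (Nat.div_mul_cancel (Nat.gcd_dvd_left _ _)).symm
          _ ≤ u * (d + 1) * (u * t.natAbs) := Nat.mul_le_mul h5 h10
          _ = _ := by rw [hc]; ring
      nlinarith
    · have h1 : ((X / D : ℕ) : ℝ) ≤ X / D := Nat.cast_div_le
      have h2 : (0 : ℝ) < D := by exact_mod_cast hD0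
      have h3 : ((X / D : ℕ) : ℝ) * c / D ≤ X / D * c / D := by gcongr
      refine (add_le_add_left h3 1).trans (le_of_eq ?_)
      field_simp
  · rw [sum_add_distrib, ← mul_sum, div_eq_mul_inv]
    refine add_le_add (mul_le_mul_of_nonneg_left (inv_sq_sum W W' hW) (by positivity)) ?_
    simp only [sum_const, Nat.card_Ioc, nsmul_eq_mul, mul_one, Nat.cast_le]
    omega

end Pool.Agent.Lib.MP_28260b_nt.Sp
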