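import Pool.Agent.Lib.MP_28260b_nt.Sp.B

/-! Squarefree numbers whose divisor sum is a multiple of a given number. -/

namespace Pool.Agent.Lib.MP_28260b_nt.Sp

open Finset ArithmeticFunction ArithmeticFunction.sigma ArithmeticFunction.Omega

lemma wcover {α β : Type} (S : Finset α) (I : Finset β) (φ : β → α) (f : α → ℝ)
    (hf : ∀ a, 0 ≤ f a) (h : ∀ a ∈ S, ∃ i ∈ I, φ i = a) : ∑ a ∈ S, f a ≤ ∑ i ∈ I, f (φ i) := by
  classical
  calc _ ≤ ∑ a ∈ I.image φ, f a :=
        sum_le_sum_of_subset_of_nonneg (fun a ha => mem_image.2 (h a ha)) fun a _ _ => hf a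
    _ ≤ _ := by
        rw [← sum_fiberwise_of_maps_to (s := I) (t := I.image φ) (g := φ)
          (fun i hi => mem_image_of_mem φ hi)]
        refine sum_le_sum fun a ha => ?_
        obtain ⟨i, hi, rfl⟩ := mem_image.1 ha
        exact single_le_sum (f := fun i => f (φ i)) (fun _ _ => hf _) (mem_filter.2 ⟨hi, rfl⟩)

/-- Squarefree numbers up to `X`. -/
def SF (X : ℕ) : Finset ℕ := (Ioc 0 X).filter Squarefree

lemma mem_SF {X D : ℕ} : D ∈ SF X ↔ D ≤ X ∧ Squarefree D := by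
  unfold SF
  rw [mem_filter, mem_Ioc]
  exact ⟨fun h => ⟨h.1.2, h.2⟩, fun h => ⟨⟨Nat.pos_of_ne_zero h.2.ne_zero, h.1⟩, h.2⟩⟩

noncomputable def SS (X G : ℕ) : ℝ := ∑ E ∈ (SF X).filter (fun E => G ∣ σ 1 E), (1 : ℝ) / E

noncomputable def zz (X : ℕ) : ℝ := 2 * (1 + Real.log (X + 1 : ℕ))

lemma zz_nonneg (X : ℕ) : 0 ≤ zz X := by
  unfold zz
  have := Real.log_natCast_nonneg (X + 1)
  linarith

lemma inv_le_succ {p : ℕ} (hp : 0 < p) : (1 : ℝ) / p ≤ 2 / (p + 1 : ℕ) := by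
  have h : (1 : ℝ) ≤ p := by exact_mod_cast hp
  push_cast
  rw [div_le_div_iff₀ (by linarith) (by linarith)]
  linarith

lemma ap_sum (X g : ℕ) (hg : 0 < g) :
    ∑ p ∈ (Ioc 0 X).filter (fun p => g ∣ p + 1), (1 : ℝ) / p ≤ zz X / g := by
  calc _ ≤ ∑ p ∈ (Ioc 0 X).filter (fun p => g ∣ p + 1), (2 : ℝ) / (p + 1 : ℕ) :=
        sum_le_sum fun p hp => inv_le_succ (mem_Ioc.1 (mem_filter.1 hp).1).1
    _ ≤ ∑ t ∈ Ioc 0 (X + 1), (2 : ℝ) / (g * t - 1 + 1 : ℕ) := by
        refine wcover _ _ (fun t => g * t - 1) (fun p => (2 : ℝ) / (p + 1 : ℕ))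
          (fun _ => by positivity) fun p hp => ?_
        obtain ⟨h1, t, h2⟩ := mem_filter.1 hp
        have h3 := mem_Ioc.1 h1
        have ht : 0 < t := Nat.pos_of_ne_zero (by rintro rfl; simp at h2)
        exact ⟨t, mem_Ioc.2 ⟨ht, by nlinarith⟩, by show g * t - 1 = p; omega⟩
    _ = 2 / g * ∑ t ∈ Ioc 0 (X + 1), (1 : ℝ) / t := by
        rw [mul_sum]
        refine sum_congr rfl fun t ht => ?_
        rw [Nat.sub_add_cancel (Nat.mul_pos hg (mem_Ioc.1 ht).1)]
        push_cast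
        rw [div_mul_div_comm, mul_one]
    _ ≤ 2 / g * (1 + Real.log (X + 1 : ℕ)) :=
        mul_le_mul_of_nonneg_left (harm_le _) (by positivity)
    _ = _ := by unfold zz; ring

lemma div_pow_sum {y : ℝ} (hy : 0 ≤ y) (H : ℕ) (hH : H ≠ 0) :
    ∑ h ∈ H.divisors, y ^ Ω h ≤ (1 + y) ^ Ω H := by
  induction H using induction_on_primes with
  | zero => exact absurd rfl hH
  | one => simp
  | prime_mul p a hp ih =>
    have ha : a ≠ 0 := right_ne_zero_of_mul hH
    calc _ ≤ ∑ i ∈ a.divisors ×ˢ range 2, y ^ Ω (p ^ i.2 * i.1) := by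
          refine wcover _ _ (fun i : ℕ × ℕ => p ^ i.2 * i.1) (fun h => y ^ Ω h)
            (fun _ => by positivity) fun h hh => ?_
          have h1 := Nat.dvd_of_mem_divisors hh
          by_cases h2 : p ∣ h
          · obtain ⟨d, rfl⟩ := h2
            exact ⟨(d, 1), mem_product.2 ⟨Nat.mem_divisors.2
              ⟨Nat.dvd_of_mul_dvd_mul_left hp.pos h1, ha⟩, by simp⟩, by simp⟩
          · exact ⟨(h, 0), mem_product.2 ⟨Nat.mem_divisors.2
              ⟨((hp.coprime_iff_not_dvd.2 h2).symm).dvd_of_dvd_mul_left h1, ha⟩, by simp⟩, by simp⟩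
      _ = (∑ h ∈ a.divisors, y ^ Ω h) * (1 + y) := by
          rw [sum_product, sum_mul]
          refine sum_congr rfl fun d hd => ?_
          have hd0 := (Nat.pos_of_mem_divisors hd).ne'
          simp only [sum_range_succ, range_zero, sum_empty, pow_zero, one_mul, pow_one,
            cardFactors_mul hp.ne_zero hd0, cardFactors_apply_prime hp]
          ring
      _ ≤ _ := by
          rw [cardFactors_mul hp.ne_zero ha, cardFactors_apply_prime hp, add_comm 1 (Ω a), pow_succ]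
          exact mul_le_mul_of_nonneg_right (ih ha) (by linarith)

lemma sf_harm (X : ℕ) : ∑ D ∈ SF X, (1 : ℝ) / D ≤ 1 + Real.log X :=
  (sum_le_sum_of_subset_of_nonneg (filter_subset _ _) fun _ _ _ => by positivity).trans (harm_le X)

lemma SS_le (X w : ℕ) : ∀ G : ℕ, G ≠ 0 → Ω G = w →
    SS X G ≤ (1 + Real.log X) * (zz X + w) ^ w / G := by
  have hL : 0 ≤ 1 + Real.log X := by have := Real.log_natCast_nonneg X; linarith
  have hz := zz_nonneg X
  induction w using Nat.strong_induction_on with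
  | _ w ih =>
  intro G hG hw
  rcases eq_or_ne G 1 with rfl | h1
  · simp only [cardFactors_one] at hw
    subst hw
    simpa [SS] using sf_harm X
  have hr := Nat.minFac_prime h1
  obtain ⟨H, hH⟩ := Nat.minFac_dvd G
  set r := G.minFac
  have hH0 : H ≠ 0 := by rintro rfl; simp [hG] at hH
  have hw' : w = Ω H + 1 := by
    rw [← hw, hH, cardFactors_mul hr.ne_zero hH0, cardFactors_apply_prime hr, add_comm]
  have hG' : (0 : ℝ) < G := by exact_mod_cast Nat.pos_of_ne_zero hG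
  calc SS X G ≤ ∑ i ∈ H.divisors.sigma fun h => ((Ioc 0 X).filter fun p => G / h ∣ p + 1) ×ˢ
          ((SF X).filter fun E => h ∣ σ 1 E), (1 : ℝ) / (i.2.1 * i.2.2 : ℕ) := by
        refine wcover _ _ (fun i : (_ : ℕ) × ℕ × ℕ => i.2.1 * i.2.2) (fun E => (1 : ℝ) / E)
          (fun _ => by positivity) fun E hE => ?_
        obtain ⟨h2, h3⟩ := mem_filter.1 hE
        obtain ⟨h4, h5⟩ := mem_SF.1 h2
        have h6 : r ∣ ∏ p ∈ E.primeFactors, (p + 1) := sig_sqf h5 ▸ (Dvd.intro _ hH.symm).trans h3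
        obtain ⟨p, hp, h7⟩ := (Prime.dvd_finsetProd_iff hr.prime _).1 h6
        have hp' := Nat.prime_of_mem_primeFactors hp
        obtain ⟨E', rfl⟩ := Nat.dvd_of_mem_primeFactors hp
        have hE' : 0 < E' := Nat.pos_of_ne_zero (right_ne_zero_of_mul h5.ne_zero)
        rw [sig_mul (Nat.coprime_of_squarefree_mul h5), sig_prime hp', mul_comm] at h3
        obtain ⟨g, hg⟩ : r ∣ G.gcd (p + 1) := Nat.dvd_gcd (Dvd.intro _ hH.symm) h7
        obtain ⟨h, hh⟩ := Nat.gcd_dvd_left G (p + 1)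
        have hg0 : 0 < G.gcd (p + 1) := Nat.gcd_pos_of_pos_right _ (by omega)
        have hh0 : 0 < h := Nat.pos_of_ne_zero (by rintro rfl; simp [hG] at hh)
        have e1 : G / G.gcd (p + 1) = h := Nat.div_eq_of_eq_mul_right hg0 hh
        have e2 : G / h = G.gcd (p + 1) := Nat.div_eq_of_eq_mul_left hh0 hh
        refine ⟨⟨h, p, E'⟩, mem_sigma.2 ⟨Nat.mem_divisors.2 ⟨⟨g, ?_⟩, hH0⟩,
          mem_product.2 ⟨mem_filter.2 ⟨mem_Ioc.2 ⟨hp'.pos, by nlinarith⟩, ?_⟩,
            mem_filter.2 ⟨mem_SF.2 ⟨by have := hp'.pos; nlinarith, h5.of_mul_right⟩, ?_⟩⟩⟩, rfl⟩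
        · refine Nat.eq_of_mul_eq_mul_left hr.pos ?_
          rw [← hH]
          conv_lhs => rw [hh, hg]
          ring
        · show G / h ∣ p + 1
          rw [e2]; exact Nat.gcd_dvd_right _ _
        · show h ∣ σ 1 E'
          rw [← e1]; exact div_gcd_dvd hG h3
    _ ≤ ∑ h ∈ H.divisors, zz X * (1 + Real.log X) / G * (zz X + Ω H) ^ Ω h := by
        rw [sum_sigma]
        refine sum_le_sum fun h hh => ?_
        have hh0 := Nat.pos_of_mem_divisors hh
        obtain ⟨k, hk⟩ := Nat.dvd_of_mem_divisors hh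
        have hk0 : k ≠ 0 := by rintro rfl; simp [hH0] at hk
        have e : G / h = r * k := Nat.div_eq_of_eq_mul_left hh0 (by rw [hH, hk]; ring)
        have hO : Ω h ≤ Ω H := by rw [hk, cardFactors_mul hh0.ne' hk0]; omega
        have h2 := ih (Ω h) (by omega) h hh0.ne' rfl
        have h3 := ap_sum X (G / h) (e ▸ Nat.mul_pos hr.pos (Nat.pos_of_ne_zero hk0))
        have h4 : (zz X + Ω h) ^ Ω h ≤ (zz X + Ω H) ^ Ω h := by
          have : ((Ω h : ℕ) : ℝ) ≤ Ω H := by exact_mod_cast hO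
          gcongr
        have e2 : (G : ℝ) = (G / h : ℕ) * h := by
          rw [e, hH, hk]; push_cast; ring
        calc _ = (∑ p ∈ (Ioc 0 X).filter (fun p => G / h ∣ p + 1), (1 : ℝ) / p) * SS X h := by
              unfold SS
              rw [sum_product, sum_mul_sum]
              refine sum_congr rfl fun p _ => sum_congr rfl fun E _ => ?_
              push_cast
              rw [div_mul_div_comm, mul_one]
          _ ≤ zz X / (G / h : ℕ) * ((1 + Real.log X) * (zz X + Ω H) ^ Ω h / h) := by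
              refine mul_le_mul h3 (h2.trans ?_) (sum_nonneg fun _ _ => by positivity)
                (by positivity)
              gcongr
          _ = _ := by rw [e2, div_mul_div_comm]; ring
    _ ≤ zz X * (1 + Real.log X) / G * (1 + (zz X + Ω H)) ^ Ω H := by
        rw [← mul_sum]
        exact mul_le_mul_of_nonneg_left (div_pow_sum (by positivity) H hH0) (by positivity)
    _ ≤ _ := by
        rw [hw', pow_succ]
        push_cast
        rw [show (1 : ℝ) + (zz X + Ω H) = zz X + (Ω H + 1) by ring, div_mul_eq_mul_div]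
        refine div_le_div_of_nonneg_right ?_ hG'.le
        have h2 : 0 ≤ (1 + Real.log X) * (zz X + (Ω H + 1)) ^ Ω H := by positivity
        have h3 : (0 : ℝ) ≤ (Ω H : ℕ) + 1 := by positivity
        nlinarith

lemma pow_Omega_le {R G : ℕ} (hG : G ≠ 0) (h : ∀ r, r.Prime → r ∣ G → R ≤ r) : R ^ Ω G ≤ G := by
  conv_rhs => rw [← Nat.prod_primeFactorsList hG]
  rw [cardFactors_apply]
  exact List.pow_card_le_prod _ _ fun r hr =>
    h r (Nat.prime_of_mem_primeFactorsList hr) (Nat.dvd_of_mem_primeFactorsList hr)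

lemma rough_SS {X R m y G : ℕ} {H : ℝ} (hy : 0 < y)
    (hH : ∀ w : ℕ, 2 ^ w ≤ X ^ 2 → zz X + w ≤ H) (hHR : H ^ (m + 1) ≤ (R : ℝ) ^ m)
    (h1 : y ^ (5 * (m + 1)) ≤ G) (h2 : G ≤ X ^ 2) (h3 : ∀ r, r.Prime → r ∣ G → R < r) :
    SS X G ≤ (1 + Real.log X) / (y : ℝ) ^ 5 := by
  have hL : 0 ≤ 1 + Real.log X := by have := Real.log_natCast_nonneg X; linarith
  have hG : 0 < G := lt_of_lt_of_le (by positivity) h1
  have hG' : (0 : ℝ) < G := by exact_mod_cast hG
  have hz := zz_nonneg X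
  have h4 := hH (Ω G) ((pow_Omega_le hG.ne' fun r hr _ => hr.two_le).trans h2)
  have h5 : ((R : ℝ)) ^ Ω G ≤ G := by exact_mod_cast pow_Omega_le hG.ne' fun r a b => (h3 r a b).le
  have h6 : (zz X + Ω G) ^ Ω G * (y : ℝ) ^ 5 ≤ G := by
    refine le_of_pow_le_pow_left₀ (n := m + 1) (by omega) hG'.le ?_
    rw [mul_pow, pow_succ (G : ℝ)]
    refine mul_le_mul ?_ (by rw [← pow_mul]; exact_mod_cast h1) (by positivity) (by positivity)
    calc _ = ((zz X + Ω G) ^ (m + 1)) ^ Ω G := by rw [← pow_mul, ← pow_mul, mul_comm]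
      _ ≤ ((R : ℝ) ^ m) ^ Ω G := by
          refine pow_le_pow_left₀ (by positivity) (le_trans ?_ hHR) _
          exact pow_le_pow_left₀ (by positivity) h4 _
      _ = ((R : ℝ) ^ Ω G) ^ m := by rw [← pow_mul, ← pow_mul, mul_comm]
      _ ≤ _ := pow_le_pow_left₀ (by positivity) h5 _
  refine (SS_le X _ G hG.ne' rfl).trans ?_
  rw [div_le_div_iff₀ hG' (by positivity), mul_assoc]
  exact mul_le_mul_of_nonneg_left h6 hL

lemma caseC (S : Finset ℕ) (x X l Z : ℕ) (K ρ : ℝ) (Good : ℕ → Prop) (hl : 0 < l) (hρ0 : 0 ≤ ρ)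
    (hρ : ∀ G, Good G → G ≤ X ^ 2 → SS X G ≤ ρ)
    (hτ : ∀ v : ℕ, v ≤ X ^ 2 → (#v.divisors : ℝ) ≤ K)
    (h : ∀ n ∈ S, n ≤ x ∧ ∃ D E G, D ∈ SF X ∧ E ∈ SF X ∧ D ∣ n ∧ E ∣ n + l ∧ D * E ≤ Z ∧
      G ∣ σ 1 D ∧ G ∣ σ 1 E ∧ Good G) :
    (#S : ℝ) ≤ (x * l + Z) * (K * ρ) * (1 + Real.log X) := by
  classical
  have hK : 0 ≤ K := le_trans (by positivity) (hτ 0 (Nat.zero_le _))
  refine (cover S (SF X) (fun D n => ∃ E G, E ∈ SF X ∧ D ∣ n ∧ E ∣ n + l ∧ D * E ≤ Z ∧
      G ∣ σ 1 D ∧ G ∣ σ 1 E ∧ Good G) (fun D => (x * l + Z) * (K * ρ) * (1 / D)) ?_ ?_).trans ?_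
  · intro n hn
    obtain ⟨-, D, E, G, h1, h2⟩ := h n hn
    exact ⟨D, h1, E, G, h2⟩
  · intro D hD T hT
    obtain ⟨hDX, hDs⟩ := mem_SF.1 hD
    have hD0 := Nat.pos_of_ne_zero hDs.ne_zero
    have hσ : σ 1 D ≤ X ^ 2 := (sig_le D).trans (Nat.pow_le_pow_left hDX 2)
    refine (cover T ((σ 1 D).divisors.filter Good) (fun G n => ∃ E, E ∈ SF X ∧ D ∣ n ∧
      E ∣ n + l ∧ D * E ≤ Z ∧ G ∣ σ 1 E) (fun _ => (x * l + Z) * (1 / D) * ρ) ?_ ?_).trans ?_
    · intro n hn
      obtain ⟨E, G, h1, h2, h3, h4, h5, h6, h7⟩ := (hT n hn).2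
      exact ⟨G, mem_filter.2 ⟨Nat.mem_divisors.2 ⟨h5, sig_ne hD0.ne'⟩, h7⟩, E, h1, h2, h3, h4, h6⟩
    · intro G hG U hU
      obtain ⟨hG1, hG2⟩ := mem_filter.1 hG
      refine (cover U ((SF X).filter fun E => G ∣ σ 1 E) (fun E n => D ∣ n ∧ E ∣ n + l ∧ D * E ≤ Z)
        (fun E => (x * l + Z) * (1 / D) * (1 / E)) ?_ ?_).trans ?_
      · intro n hn
        obtain ⟨E, h1, h2, h3, h4, h5⟩ := (hU n hn).2
        exact ⟨E, mem_filter.2 ⟨h1, h5⟩, h2, h3, h4⟩
      · intro E hE V hV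
        have hE0 := Nat.pos_of_ne_zero (mem_SF.1 (mem_filter.1 hE).1).2.ne_zero
        rcases V.eq_empty_or_nonempty with rfl | ⟨n0, hn0⟩
        · simp only [card_empty, Nat.cast_zero]; positivity
        obtain ⟨-, h1, h2, h3⟩ := hV n0 hn0
        have hg : D.gcd E ≤ l := Nat.le_of_dvd hl ((Nat.dvd_add_right
          ((Nat.gcd_dvd_left D E).trans h1)).1 ((Nat.gcd_dvd_right D E).trans h2))
        refine (spaced V x l (D * E) (Nat.mul_pos hD0 hE0)
          (fun n hn => (h n (hT n (hU n (hV n hn).1).1).1).1) ?_).trans ?_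
        · intro n hn n' hn' hlt
          obtain ⟨d, rfl⟩ := Nat.exists_eq_add_of_lt hlt
          have h4 : D ∣ d + 1 := (Nat.dvd_add_right (hV n hn).2.1).1 (hV _ hn').2.1
          have h5 : E ∣ d + 1 := (Nat.dvd_add_right (hV n hn).2.2.1).1
            (by convert (hV _ hn').2.2.1 using 1; ring)
          have h6 := Nat.le_of_dvd (by omega) (Nat.lcm_dvd h4 h5)
          have h7 : D * E ≤ l * (d + 1) := Nat.gcd_mul_lcm D E ▸ Nat.mul_le_mul hg h6
          nlinarith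
        · have h4 : ((D * E : ℕ) : ℝ) ≤ Z := by exact_mod_cast h3
          have h5 : (0 : ℝ) < D := by exact_mod_cast hD0
          have h6 : (0 : ℝ) < E := by exact_mod_cast hE0
          push_cast at h4 ⊢
          rw [mul_assoc, div_mul_div_comm, mul_one, mul_one_div, add_div]
          exact add_le_add_right ((one_le_div (by positivity)).2 h4) _
      · rw [← mul_sum]
        exact mul_le_mul_of_nonneg_left (hρ G hG2 ((Nat.divisor_le hG1).trans hσ)) (by positivity)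
    · rw [sum_const, nsmul_eq_mul]
      have h1 : (#((σ 1 D).divisors.filter Good) : ℝ) ≤ K :=
        (Nat.cast_le.2 (card_filter_le _ _)).trans (hτ _ hσ)
      calc _ ≤ K * ((x * l + Z) * (1 / D) * ρ) := mul_le_mul_of_nonneg_right h1 (by positivity)
        _ = _ := by ring
  · rw [← mul_sum]
    exact mul_le_mul_of_nonneg_left (sf_harm X) (by positivity)

end Pool.Agent.Lib.MP_28260b_nt.Sp
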