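import Pool.Agent.Lib.MP_28260b_nt.Sp.Z

/-! The bound for the solutions outside the family of friends. -/

namespace Pool.Agent.Lib.MP_28260b_nt.Sp

open Finset Filter Real ArithmeticFunction ArithmeticFunction.sigma

lemma le_two_log {w : ℕ} {a : ℝ} (h : (2 : ℝ) ^ w ≤ a) : (w : ℝ) ≤ 2 * Real.log a := by
  have h1 := Real.log_le_log (by positivity) h
  rw [Real.log_pow] at h1
  have := Real.log_two_gt_d9
  have h0 : (0 : ℝ) ≤ w := by positivity
  nlinarith

theorem sporadic (ε : ℝ) (hε : 0 < ε) : ∃ γ : ℝ, 0 < γ ∧ ∀ᶠ x : ℕ in atTop, ∀ l : ℕ, 0 < l →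
    (l : ℝ) ≤ (x : ℝ) ^ γ → ∀ S : Finset ℕ,
      (∀ n ∈ S, 0 < n ∧ n ≤ x ∧ σ 1 n = σ 1 (n + l) ∧ ¬ Exc l n) →
      (#S : ℝ) ≤ x * exp (-((3 / 2 - ε) * (Real.log x * Real.log (Real.log (Real.log x))
        / Real.log (Real.log x)))) := by
  obtain ⟨k, hk⟩ := exists_nat_ge (max 36 (36 / ε))
  have hk1 : (36 : ℝ) ≤ k := (le_max_left _ _).trans hk
  have hk2 : 36 / ε ≤ k := (le_max_right _ _).trans hk
  have hk3 : 36 ≤ k := by exact_mod_cast hk1
  have hk0 : (0 : ℝ) < k := by linarith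
  obtain ⟨δ, hδ⟩ : ∃ δ : ℝ, δ = 1 / k := ⟨_, rfl⟩
  have hδ0 : 0 < δ := by rw [hδ]; positivity
  have hδk : δ * k = 1 := by rw [hδ]; field_simp
  have hδ1 : δ ≤ 1 / 36 := by rw [hδ]; exact one_div_le_one_div_of_le (by norm_num) hk1
  have hδε : 36 * δ ≤ ε := by
    rw [div_le_iff₀ hε] at hk2
    nlinarith
  obtain ⟨A, hA⟩ : ∃ A, A = k * (28000 * k) := ⟨_, rfl⟩
  obtain ⟨v, hv⟩ : ∃ v, v = 700 * k ^ 3 := ⟨_, rfl⟩
  have hkA : k * A = 40 * v := by rw [hA, hv]; ring
  have hA1 : 36 * (28000 * k) ≤ A := hA ▸ Nat.mul_le_mul_right _ hk3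
  have hA2 : 36 * A ≤ 40 * v := hkA ▸ Nat.mul_le_mul_right _ hk3
  obtain ⟨J, hJ⟩ : ∃ J, J = 40 * v := ⟨_, rfl⟩
  have hJ0 : (0 : ℝ) < J := by exact_mod_cast (show 0 < J by omega)
  obtain ⟨lJ, hlJ⟩ : ∃ lJ : ℝ, lJ = 1 / J := ⟨_, rfl⟩
  have hl0 : 0 < lJ := by rw [hlJ]; positivity
  have hlJ' : J * lJ = 1 := by rw [hlJ]; field_simp
  have hl1 : lJ ≤ 1 := by
    have : (1 : ℝ) ≤ J := by exact_mod_cast (show 1 ≤ J by omega)
    nlinarith
  obtain ⟨m, hm⟩ : ∃ m, m + 1 = 3 * k := ⟨3 * k - 1, by omega⟩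
  obtain ⟨C, hC1, hC⟩ := Pool.Agent.Lib.SW.divisor_bound (ε := lJ / 4) (by positivity)
  have t1 : Tendsto (fun x : ℕ => Real.log x) atTop atTop :=
    Real.tendsto_log_atTop.comp tendsto_natCast_atTop_atTop
  have t2 := Real.tendsto_log_atTop.comp t1
  have t3 := Real.tendsto_log_atTop.comp t2
  refine ⟨lJ, hl0, ?_⟩
  filter_upwards [eventually_ge_atTop 16, t1.eventually_ge_atTop (max (max C J) (16 ^ (m + 1))),
    t2.eventually_ge_atTop 100, t3.eventually_ge_atTop 5,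
    t1.eventually (ev (a := lJ / 4) (c := 1) (by positivity) one_pos),
    t2.eventually (ev (a := 1 / 4) (by norm_num) hl0),
    t2.eventually (ev (a := δ / 4) (c := min (ε / 2) (lJ / 2)) (by positivity) (by positivity)),
    t3.eventually (ev (a := δ / (1 + δ)) (c := δ / 4) (by positivity) (by positivity)),
    t3.eventually (ev (a := 1) (c := lJ / 3) one_pos (by positivity))]
    with x hx g1 g2 g3 g4 g5 g6 g7 g8 l hl hlx S hS
  simp only [Function.comp] at g2 g3 g5 g6 g7 g8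
  have hx' : (16 : ℝ) ≤ x := by exact_mod_cast hx
  set u := Real.log x with hu
  set w := Real.log u with hw
  set z := Real.log w with hz
  have g1a : C ≤ u := ((le_max_left _ _).trans (le_max_left _ _)).trans g1
  have g1b : (J : ℝ) ≤ u := ((le_max_right _ _).trans (le_max_left _ _)).trans g1
  have g1c : (16 : ℝ) ^ (m + 1) ≤ u := (le_max_right _ _).trans g1
  have hu0 : 0 < u := by linarith
  have ex : (x : ℝ) = exp u := (Real.exp_log (by linarith)).symm
  have eu : u = exp w := (Real.exp_log hu0).symm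
  have ew : w = exp z := (Real.exp_log (by linarith)).symm
  have hu1 : 100 ≤ u := by have := add_one_le_exp w; linarith
  have huu : 100 * u ≤ u ^ 2 := by rw [sq]; exact mul_le_mul_of_nonneg_right hu1 hu0.le
  have hlu := mul_pos hl0 hu0
  have hzw : z / w ≤ lJ / 3 := by
    rw [div_le_iff₀ (by linarith)]
    rw [one_mul, ← ew] at g8
    have : 5 * z ≤ z ^ 2 := by rw [sq]; exact mul_le_mul_of_nonneg_right g3 (by linarith)
    linarith
  obtain ⟨r, hr⟩ : ∃ r, r = exp (lJ * u) := ⟨_, rfl⟩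
  have hr0 : 0 < r := hr ▸ exp_pos _
  have hr1 : 20 * u ^ 2 ≤ r := by
    rw [one_mul] at g4
    exact g4.trans (hr ▸ Real.exp_le_exp.2 (by linarith))
  have hrJ : r ^ J = x := by rw [hr, ← Real.exp_nat_mul, ← mul_assoc, hlJ', one_mul, ex]
  obtain ⟨y, hy⟩ : ∃ y, y = ⌈r⌉₊ := ⟨_, rfl⟩
  have hy1 : r ≤ y := hy ▸ Nat.le_ceil r
  have hy2 : (y : ℝ) ≤ r + 1 := hy ▸ (Nat.ceil_lt_add_one hr0.le).le
  have hy3 : 8 * u ≤ y := by linarith
  have hy4 : 2 ≤ y := by exact_mod_cast (show (2 : ℝ) ≤ y by linarith)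
  have hyJ : (y : ℝ) ^ J ≤ 2 * x := by
    have h1 : (y : ℝ) ≤ r * exp (1 / r) := by
      have := mul_le_mul_of_nonneg_left (add_one_le_exp (1 / r)) hr0.le
      rw [mul_add, mul_one_div_cancel hr0.ne'] at this
      linarith
    have h2 : exp (J * (1 / r)) ≤ 2 := by
      rw [← Real.le_log_iff_exp_le two_pos, mul_one_div, div_le_iff₀ hr0]
      have := mul_le_mul_of_nonneg_right Real.log_two_gt_d9.le hr0.le
      linarith
    calc _ ≤ (r * exp (1 / r)) ^ J := pow_le_pow_left₀ (by positivity) h1 J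
      _ = x * exp (J * (1 / r)) := by rw [mul_pow, hrJ, Real.exp_nat_mul]
      _ ≤ _ := by rw [mul_comm 2]; exact mul_le_mul_of_nonneg_left h2 (by linarith)
  have hxy : x ≤ y ^ J := by
    have := pow_le_pow_left₀ hr0.le hy1 J
    rw [hrJ] at this
    exact_mod_cast this
  obtain ⟨X, hX⟩ : ∃ X, X = 2 * y ^ J := ⟨_, rfl⟩
  have hX0 : 0 < X := by omega
  have hX0' : (0 : ℝ) < X := by exact_mod_cast hX0
  have hX1 : (X : ℝ) ≤ 4 * x := by rw [hX]; push_cast; linarith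
  have hlog : ∀ a : ℝ, 0 < a → a ≤ 8 * x → Real.log a ≤ u + 3 := fun a h0 h1 =>
    (Real.log_le_log h0 h1).trans (log_mul_le (by norm_num) (by linarith) (by norm_num) le_rfl)
  have hzz : zz X ≤ 8 * u := by
    have := hlog (X + 1 : ℕ) (by positivity) (by push_cast; linarith)
    unfold zz
    linarith
  have hlX := hlog X hX0' (by linarith)
  obtain ⟨R, hR⟩ : ∃ R, R = ⌈exp ((1 + δ) * w)⌉₊ := ⟨_, rfl⟩
  have hR1 : exp ((1 + δ) * w) ≤ R := hR ▸ Nat.le_ceil _
  have hR2 : (R : ℝ) ≤ 2 * exp ((1 + δ) * w) := by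
    have h1 := (Nat.ceil_lt_add_one (exp_pos ((1 + δ) * w)).le).le
    have h2 : 1 ≤ exp ((1 + δ) * w) := Real.one_le_exp (by positivity)
    rw [hR]; linarith
  have hR0 : 0 < R := by exact_mod_cast (exp_pos _).trans_le hR1
  have hT := Th_bound (X := X) hδ0 (by linarith) ew g3 hX0 (eu ▸ hzz) hR0 hR2 g7 (by linarith)
  have key := total S (y := y) (R := R) (l := l) (v := v) (J := J) (j := J - 1) (A := A)
    (B := 28000 * k) (m := m) (w₁ := 20 * v - 3 * A) (w₂ := 20 * v - 6 * A)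
    (e₁ := 20 * v - 3 * A - 28000 * k) (e₂ := 20 * v - 6 * A - 28000 * k - 1) (X := X)
    (η := z / ((1 + δ) ^ 3 * w)) (H := 16 * u) (lam := 8 * u) hy4 hl
    (by
      rw [Real.rpow_def_of_pos (by linarith), mul_comm, ← hu, ← hr] at hlx
      exact_mod_cast hlx.trans hy1)
    hJ (by omega) (by omega) (by omega) (by omega) (by omega) (by omega) (by omega) hX
    (by positivity) (by have := hlog (2 * X) (by linarith) (by linarith); linarith)
    (fun v hv => by
      have h1 : (v : ℝ) ≤ exp (3 * u) := by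
        have h2 : (v : ℝ) ≤ (X : ℝ) ^ 2 := by exact_mod_cast hv
        rw [show (3 : ℝ) * u = (3 : ℕ) * u by norm_num, Real.exp_nat_mul, ← ex]
        have h3 := pow_le_pow_left₀ hX0'.le hX1 2
        have h4 : 16 * (x : ℝ) ^ 2 ≤ x * (x : ℝ) ^ 2 := by gcongr
        calc _ ≤ (4 * (x : ℝ)) ^ 2 := h2.trans h3
          _ = 16 * (x : ℝ) ^ 2 := by ring
          _ ≤ _ := h4.trans (le_of_eq (by ring))
      have h2 := Real.rpow_le_rpow (by positivity) h1 (show 0 ≤ lJ / 4 by positivity)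
      rw [← Real.exp_mul] at h2
      have h3 : C ≤ exp (lJ / 4 * u) := by linarith
      refine (hC v).trans (le_trans (mul_le_mul h3 h2 (by positivity) (exp_pos _).le) ?_)
      rw [← Real.exp_add]
      exact le_trans (le_of_eq (by rw [hr]; congr 1; ring)) hy1)
    (fun n hn => by
      have h1 := le_two_log (w := n) (a := (X : ℝ) ^ 2) (by exact_mod_cast hn)
      rw [Real.log_pow] at h1
      push_cast at h1
      linarith)
    (by
      have h1 : (m : ℝ) + 1 = 3 * k := by exact_mod_cast hm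
      have h2 : 2 ≤ m * δ := by
        rw [show (m : ℝ) = 3 * k - 1 by linarith, sub_mul, mul_assoc, mul_comm _ δ, hδk]
        linarith
      have h3 := mul_le_mul_of_nonneg_right h2 (show 0 ≤ w by linarith)
      calc (16 * u) ^ (m + 1) = 16 ^ (m + 1) * u ^ (m + 1) := mul_pow _ _ _
        _ ≤ u * u ^ (m + 1) := by gcongr
        _ = exp ((m + 2 : ℕ) * w) := by rw [Real.exp_nat_mul, ← eu]; ring
        _ ≤ exp (m * ((1 + δ) * w)) := Real.exp_le_exp.2 (by push_cast; linarith)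
        _ ≤ _ := by rw [Real.exp_nat_mul]; exact pow_le_pow_left₀ (exp_pos _).le hR1 m)
    ((EE_bound (by linarith) g2 hR0 hR2 g5).trans (by rw [← eu, ← hr]; exact hy1)) hzz
    (by
      have := le_two_log (w := Nat.log 2 X) (a := X)
        (by exact_mod_cast Nat.pow_log_le_self 2 hX0.ne')
      linarith)
    fun n hn => ⟨(hS n hn).1, (hS n hn).2.1.trans hxy, (hS n hn).2.2⟩
  refine finish eu g2 (by linarith) hδ0 hδ1 hδε (by linarith) hyJ hl0 (hr ▸ hy1) ?_ (exp_pos _).le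
    (Real.exp_le_exp.2 (by linarith)) rfl g6 (min_le_left _ _) (min_le_right _ _) hzw key
  have h1 : 60 * v ≤ 2 * (20 * v - 3 * A - 28000 * k) + (20 * v - 6 * A - 28000 * k - 1)
      + 13 * A := by omega
  generalize 2 * (20 * v - 3 * A - 28000 * k) + (20 * v - 6 * A - 28000 * k - 1) = e at h1
  have h2 : 60 * (v : ℝ) ≤ e + 13 * A := by exact_mod_cast h1
  have h3 : (J : ℝ) = 40 * v := by exact_mod_cast hJ
  have h4 : (k : ℝ) * A = 40 * v := by exact_mod_cast hkA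
  have h5 : δ * J = A := by rw [h3, ← h4, ← mul_assoc, hδk, one_mul]
  rw [hlJ, one_div_mul_eq_div, le_div_iff₀ hJ0]
  linarith

end Pool.Agent.Lib.MP_28260b_nt.Sp
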