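import Pool.Agent.Lib.MP_28260b_nt.Sp.R

/-! An upper bound of level one half for triple products in a residue class. -/

namespace Pool.Agent.Lib.MP_28260b_nt.Sp

open Finset Pool.Agent.Lib.LargeSieve Pool.Agent.Lib.MP_6a20cc_nt

noncomputable def psi (p l : ℕ) (x : ZMod p) : ℝ :=
  (if x = (l : ZMod p) then 1 else 0) - if x = 0 then 0 else 1 / ((p : ℝ) - 1)

lemma w_nonneg (p : ℕ) [Fact p.Prime] : 0 ≤ 1 / ((p : ℝ) - 1) := by
  have := two_le_cast (Fact.out : p.Prime)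
  exact div_nonneg zero_le_one (by linarith)

lemma psi_zero {p l : ℕ} (h : (l : ZMod p) ≠ 0) : psi p l 0 = 0 := by
  simp [psi, h.symm]

lemma sum_w (p : ℕ) [Fact p.Prime] :
    ∑ x : ZMod p, (if x = 0 then 0 else 1 / ((p : ℝ) - 1)) = 1 := by
  have h := two_le_cast (Fact.out : p.Prime)
  have e : ∀ x : ZMod p, (if x = 0 then 0 else 1 / ((p : ℝ) - 1))
      = 1 / ((p : ℝ) - 1) - if x = 0 then 1 / ((p : ℝ) - 1) else 0 := fun x => by
    split_ifs <;> simp
  simp only [e, sum_sub_distrib, sum_const, card_univ, ZMod.card, nsmul_eq_mul, sum_ite_eq',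
    mem_univ, if_true]
  have : (p : ℝ) - 1 ≠ 0 := by linarith
  field_simp

lemma psi_sum (p l : ℕ) [Fact p.Prime] : ∑ x, psi p l x = 0 := by
  simp only [psi, sum_sub_distrib, sum_w, sum_ite_eq', mem_univ, if_true, sub_self]

lemma psi_abs (p l : ℕ) [Fact p.Prime] : ∑ x, |psi p l x| ≤ 2 := by
  have hw := w_nonneg p
  calc _ ≤ ∑ x : ZMod p, ((if x = (l : ZMod p) then (1 : ℝ) else 0)
        + if x = 0 then 0 else 1 / ((p : ℝ) - 1)) := by
        refine sum_le_sum fun x _ => (abs_sub _ _).trans (le_of_eq ?_)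
        rw [abs_of_nonneg (by split_ifs <;> norm_num), abs_of_nonneg (by split_ifs <;> simp_all)]
    _ = 2 := by
        simp only [sum_add_distrib, sum_w, sum_ite_eq', mem_univ, if_true]
        norm_num

lemma psi_maj (p l : ℕ) [Fact p.Prime] (x : ZMod p) :
    (if x = (l : ZMod p) then 1 else 0) ≤ psi p l x + 1 / ((p : ℝ) - 1) := by
  have hw := w_nonneg p
  unfold psi
  split_ifs <;> linarith

lemma psi_tw_sum (p l : ℕ) [Fact p.Prime] (h : (l : ZMod p) ≠ 0) (t : ZMod p) :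
    ∑ x, psi p l (x * t) = 0 := by
  by_cases ht : t = 0
  · simp [ht, psi_zero h]
  · simp only [mul_comm _ t]
    rw [sum_scale (psi p l) t ht, psi_sum]

variable {ι : Type} [DecidableEq ι] {pr : ι → ℕ} [∀ p, Fact (pr p).Prime]

noncomputable def ind (A : Finset ℕ) (n : ℕ) : ℝ := if n ∈ A then 1 else 0

lemma abs_ind (A : Finset ℕ) (n : ℕ) : |ind A n| ≤ 1 := by
  unfold ind; split_ifs <;> simp

lemma sum_ind {A : Finset ℕ} {P : ℕ} (h : A ⊆ range P) (g : ℕ → ℝ) :
    ∑ n ∈ range P, ind A n * g n = ∑ n ∈ A, g n := by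
  simp only [ind, ite_mul, one_mul, zero_mul]
  rw [← sum_filter, filter_mem_eq_inter, inter_eq_right.2 h]

noncomputable def VV (pr : ι → ℕ) (l T : ℕ) (A₁ A₂ : Finset ℕ) (f : Finset ι) : ℝ :=
  ∑ m ∈ A₁, ∑ n ∈ A₂, ∑ t ∈ range T, ∏ p ∈ f, psi (pr p) l ((m * n * t : ℕ) : ZMod (pr p))

noncomputable def en (P M : ℕ) (A₁ A₂ : Finset ℕ) (q : ℕ) : ℝ :=
  √(energy P (fun n => (ind A₁ n : ℂ)) q) * √(energy M (fun n => (ind A₂ n : ℂ)) q) / q

lemma VV_small (hinj : Function.Injective pr) {l T P M : ℕ} {A₁ A₂ : Finset ℕ}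
    (h1 : A₁ ⊆ range P) (h2 : A₂ ⊆ range M) {f : Finset ι} (hf : f.Nonempty)
    (hl : ∀ p ∈ f, (l : ZMod (pr p)) ≠ 0) : |VV pr l T A₁ A₂ f| ≤ P * M * 2 ^ #f := by
  have hk : kap f (fun p => psi (pr p) l) ≤ 2 ^ #f := by
    unfold kap
    rw [← prod_const]
    exact prod_le_prod (fun _ _ => by positivity) fun p _ => psi_abs _ _
  have h3 : ∀ m, |∑ t ∈ range T, ∏ p ∈ f, psi (pr p) l ((m * t : ℕ) : ZMod (pr p))| ≤ 2 ^ #f := by
    intro m
    have := typeI hinj (D := 1) 0 one_pos (fun _ => Nat.coprime_one_left _) hf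
      (ψ := fun p => psi (pr p) l) (fun p hp => psi_zero (hl p hp)) (fun p _ => psi_sum _ _) m T
    simp only [PS, Nat.modEq_one, if_true, Nat.cast_one, one_mul] at this
    exact this.trans hk
  have c1 : (#A₁ : ℝ) ≤ P := by exact_mod_cast (card_le_card h1).trans (card_range P).le
  have c2 : (#A₂ : ℝ) ≤ M := by exact_mod_cast (card_le_card h2).trans (card_range M).le
  calc _ ≤ ∑ m ∈ A₁, ∑ n ∈ A₂, (2 : ℝ) ^ #f := (abs_sum_le_sum_abs _ _).trans
        (sum_le_sum fun m _ => (abs_sum_le_sum_abs _ _).trans (sum_le_sum fun n _ => h3 _))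
    _ ≤ _ := by
        simp only [sum_const, nsmul_eq_mul, ← mul_assoc]
        gcongr

lemma VV_big (hinj : Function.Injective pr) {l T P M : ℕ} {A₁ A₂ : Finset ℕ}
    (h1 : A₁ ⊆ range P) (h2 : A₂ ⊆ range M) {f : Finset ι}
    (hl : ∀ p ∈ f, (l : ZMod (pr p)) ≠ 0) :
    |VV pr l T A₁ A₂ f| ≤ T * (2 * 2 ^ #f) * en P M A₁ A₂ (∏ p ∈ f, pr p) := by
  have e : VV pr l T A₁ A₂ f = ∑ t ∈ range T, ∑ m ∈ range P, ∑ n ∈ range M, ind A₁ m * ind A₂ n *
      ∏ p ∈ f, psi (pr p) l (((m * n : ℕ) : ZMod (pr p)) * (t : ZMod (pr p))) := by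
    simp only [mul_assoc, ← mul_sum, sum_ind h1, sum_ind h2]
    unfold VV
    rw [sum_comm (s := range T)]
    refine sum_congr rfl fun m _ => ?_
    rw [sum_comm (s := range T)]
    simp only [Nat.cast_mul]
  rw [e]
  calc _ ≤ ∑ t ∈ range T, (2 * 2 ^ #f) * en P M A₁ A₂ (∏ p ∈ f, pr p) := by
        refine (abs_sum_le_sum_abs _ _).trans (sum_le_sum fun t _ => ?_)
        refine (bilinear_prod hinj f (fun p x => psi (pr p) l (x * (t : ZMod (pr p))))
          (fun p hp => by simpa using psi_zero (hl p hp)) (fun p hp => psi_tw_sum _ _ (hl p hp) _)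
          P M _ _).trans ?_
        refine mul_le_mul_of_nonneg_right (mul_le_mul_of_nonneg_left ?_ (by norm_num))
          (by positivity)
        rw [← prod_const]
        exact prod_le_prod (fun _ _ => by positivity) fun p hp =>
          (sum_abs_mul_le _ (psi_zero (hl p hp)) _).trans (psi_abs _ _)
    _ = _ := by simp only [sum_const, card_range, nsmul_eq_mul, mul_assoc]

theorem level (hinj : Function.Injective pr) (PP : Finset ι) (BB : Finset (Finset ι))
    {l P M T F Q : ℕ} {K Z : ℝ} {A₁ A₂ : Finset ℕ} (h1 : A₁ ⊆ range P) (h2 : A₂ ⊆ range M)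
    (hB : ∀ g ∈ BB, g ⊆ PP ∧ ∏ p ∈ g, pr p ≤ Q ∧ ∀ p ∈ g, (l : ZMod (pr p)) ≠ 0)
    (hK : ∀ f : Finset ι, ∏ p ∈ f, pr p ≤ Q → 2 ^ #f ≤ K) (hK0 : 0 ≤ K)
    (hZ : ∑ q ∈ Ioc F Q, en P M A₁ A₂ q ≤ Z) :
    ∑ g ∈ BB, ∑ m ∈ A₁, ∑ n ∈ A₂, ∑ t ∈ range T,
      ∏ p ∈ g, (if ((m * n * t : ℕ) : ZMod (pr p)) = (l : ZMod (pr p)) then (1 : ℝ) else 0)
      ≤ #A₁ * #A₂ * T * (∑ g ∈ BB, ∏ p ∈ g, 1 / ((pr p : ℝ) - 1))
        + (F * (P * M * K) + T * (2 * K) * Z) * ∏ p ∈ PP, (1 + 1 / ((pr p : ℝ) - 1)) := by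
  set w : Finset ι → ℝ := fun g => ∏ p ∈ g, 1 / ((pr p : ℝ) - 1) with hw
  have hw0 : ∀ g, 0 ≤ w g := fun g => prod_nonneg fun p _ => w_nonneg _
  set err : ℕ → ℝ := fun q => if q ≤ F then P * M * K else T * (2 * K) * en P M A₁ A₂ q with herr
  have hen : ∀ q, 0 ≤ en P M A₁ A₂ q := fun q => by unfold en; positivity
  have he0 : ∀ q, 0 ≤ err q := fun q => by
    have := hen q
    simp only [herr]; split_ifs <;> positivity
  have s1 : ∀ g ∈ BB, ∑ m ∈ A₁, ∑ n ∈ A₂, ∑ t ∈ range T,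
      ∏ p ∈ g, (if ((m * n * t : ℕ) : ZMod (pr p)) = (l : ZMod (pr p)) then (1 : ℝ) else 0)
      ≤ #A₁ * #A₂ * T * w g + ∑ f ∈ g.powerset, err (∏ p ∈ f, pr p) * w (g \ f) := by
    intro g hg
    obtain ⟨-, h4, h5⟩ := hB g hg
    calc _ ≤ ∑ m ∈ A₁, ∑ n ∈ A₂, ∑ t ∈ range T, ∑ f ∈ g.powerset,
          (∏ p ∈ f, psi (pr p) l ((m * n * t : ℕ) : ZMod (pr p))) * w (g \ f) := by
          refine sum_le_sum fun m _ => sum_le_sum fun n _ => sum_le_sum fun t _ => ?_
          rw [← prod_add]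
          exact prod_le_prod (fun _ _ => by split_ifs <;> norm_num) fun p _ => psi_maj _ _ _
      _ = ∑ f ∈ g.powerset, VV pr l T A₁ A₂ f * w (g \ f) := by
          simp only [VV, sum_mul]
          rw [sum_comm (s := g.powerset)]
          refine sum_congr rfl fun m _ => ?_
          rw [sum_comm (s := g.powerset)]
          refine sum_congr rfl fun n _ => ?_
          rw [sum_comm (s := g.powerset)]
      _ ≤ ∑ f ∈ g.powerset, ((if f = ∅ then #A₁ * #A₂ * T * w g else 0)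
            + err (∏ p ∈ f, pr p) * w (g \ f)) := by
          refine sum_le_sum fun f hf => ?_
          have hfg := mem_powerset.1 hf
          split_ifs with h6
          · subst h6
            have := mul_nonneg (he0 (∏ p ∈ (∅ : Finset ι), pr p)) (hw0 (g \ ∅))
            simp only [VV, prod_empty, sum_const, card_range, nsmul_eq_mul, mul_one,
              sdiff_empty] at this ⊢
            rw [← mul_assoc]
            linarith
          · rw [zero_add]
            refine mul_le_mul_of_nonneg_right ((le_abs_self _).trans ?_) (hw0 _)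
            have h7 := hK f ((Nat.le_of_dvd (prod_pr_pos g) (prod_dvd_prod_of_subset _ _ _ hfg)).trans h4)
            simp only [herr]
            split_ifs
            · refine (VV_small hinj h1 h2 (nonempty_iff_ne_empty.2 h6)
                fun p hp => h5 p (hfg hp)).trans ?_
              gcongr
            · refine (VV_big hinj h1 h2 fun p hp => h5 p (hfg hp)).trans ?_
              have := hen (∏ p ∈ f, pr p)
              gcongr
      _ = _ := by
          rw [sum_add_distrib, sum_ite_eq', if_pos (empty_mem_powerset g)]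
  refine (sum_le_sum s1).trans ?_
  rw [sum_add_distrib, ← mul_sum]
  refine add_le_add_right ?_ _
  set FF := PP.powerset.filter fun f => ∏ p ∈ f, pr p ≤ Q with hFF
  calc _ = ∑ i ∈ (BB.sigma fun g => g.powerset).image (fun i => (i.2, i.1 \ i.2)),
          err (∏ p ∈ i.1, pr p) * w i.2 := by
        rw [sum_image, sum_sigma]
        rintro ⟨g, f⟩ h ⟨g', f'⟩ h' e
        obtain ⟨e1, e2⟩ := Prod.mk.inj e
        have h3 := mem_powerset.1 (mem_sigma.1 h).2
        have h4 := mem_powerset.1 (mem_sigma.1 h').2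
        dsimp only at e1 e2 h3 h4
        subst e1
        have : g = g' := by rw [← union_sdiff_of_subset h3, ← union_sdiff_of_subset h4, e2]
        subst this
        rfl
    _ ≤ ∑ i ∈ FF ×ˢ PP.powerset, err (∏ p ∈ i.1, pr p) * w i.2 := by
        refine sum_le_sum_of_subset_of_nonneg (fun i hi => ?_) fun i _ _ => mul_nonneg (he0 _) (hw0 _)
        obtain ⟨⟨g, f⟩, h, rfl⟩ := mem_image.1 hi
        have h3 := mem_powerset.1 (mem_sigma.1 h).2
        obtain ⟨h4, h5, -⟩ := hB g (mem_sigma.1 h).1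
        exact mem_product.2 ⟨mem_filter.2 ⟨mem_powerset.2 (h3.trans h4),
          (Nat.le_of_dvd (prod_pr_pos g) (prod_dvd_prod_of_subset _ _ _ h3)).trans h5⟩,
          mem_powerset.2 (sdiff_subset.trans h4)⟩
    _ = (∑ q ∈ FF.image (fun f => ∏ p ∈ f, pr p), err q) * ∏ p ∈ PP, (1 + 1 / ((pr p : ℝ) - 1)) := by
        rw [sum_image fun f _ g _ e => prod_pr_injective hinj e, prod_one_add, sum_mul_sum,
          sum_product]
    _ ≤ _ := by
        refine mul_le_mul_of_nonneg_right ?_ (prod_nonneg fun p _ => by have := w_nonneg (pr p); linarith)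
        calc _ ≤ ∑ q ∈ Ioc 0 F ∪ Ioc F Q, err q := by
              refine sum_le_sum_of_subset_of_nonneg (fun q hq => ?_) fun q _ _ => he0 q
              obtain ⟨f, hf, rfl⟩ := mem_image.1 hq
              have h3 := (mem_filter.1 hf).2
              have h4 := prod_pr_pos (pr := pr) f
              simp only [mem_union, mem_Ioc]
              omega
          _ = ∑ q ∈ Ioc 0 F, err q + ∑ q ∈ Ioc F Q, err q :=
              sum_union (disjoint_left.2 fun q h h' => by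
                have := mem_Ioc.1 h; have := mem_Ioc.1 h'; omega)
          _ ≤ _ := by
              rw [sum_congr rfl (g := fun _ => P * M * K) fun q hq => if_pos (mem_Ioc.1 hq).2,
                sum_congr rfl (s₁ := Ioc F Q) (g := fun q => T * (2 * K) * en P M A₁ A₂ q)
                  fun q hq => if_neg (not_le.2 (mem_Ioc.1 hq).1), sum_const, ← mul_sum]
              simp only [Nat.card_Ioc, Nat.sub_zero, nsmul_eq_mul]
              exact add_le_add_right (mul_le_mul_of_nonneg_left hZ (by positivity)) _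

local instance (p : Nat.Primes) : Fact p.1.Prime := ⟨p.2⟩

lemma prod_sub {E : Type} [CommMonoid E] (s : Finset ℕ) (hs : ∀ p ∈ s, p.Prime) (g : ℕ → E) :
    ∏ p ∈ s.subtype Nat.Prime, g p.1 = ∏ p ∈ s, g p := prod_subtype_of_mem g hs

theorem box (S B A₁ A₂ : Finset ℕ) {l P M T F Q X R : ℕ} {K Z η : ℝ} (hη : 0 ≤ η)
    (h1 : A₁ ⊆ range P) (h2 : A₂ ⊆ range M) (hQ : Q ≤ X)
    (hB : ∀ D ∈ B, D ∈ SF Q ∧ D.Coprime l)
    (hK : ∀ v : ℕ, v ≤ Q → (#v.divisors : ℝ) ≤ K)
    (hZ0 : 0 ≤ Z) (hZ : ∑ q ∈ Ioc F Q, en P M A₁ A₂ q ≤ Z)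
    (h : ∀ N ∈ S, ∃ D ∈ B, ∃ m ∈ A₁, ∃ n ∈ A₂, ∃ t, t < T ∧ N = m * n * t ∧ N ≡ l [MOD D]) :
    (#S : ℝ) ≤ #A₁ * #A₂ * T * (∑ D ∈ B, ip D)
      + (F * (P * M * K) + T * (2 * K) * Z) * Real.exp (2 * Th X R η) := by
  classical
  have hK0 : 0 ≤ K := le_trans (by positivity) (hK 0 (Nat.zero_le _))
  let fD : ℕ → Finset Nat.Primes := fun D => D.primeFactors.subtype Nat.Prime
  have hpf : ∀ D : ℕ, ∀ p ∈ D.primeFactors, p.Prime := fun D p => Nat.prime_of_mem_primeFactors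
  have hfD : ∀ D ∈ B, ∏ p ∈ fD D, p.1 = D := fun D hD =>
    (prod_sub _ (hpf D) fun p => p).trans
      (Nat.prod_primeFactors_of_squarefree (mem_SF.1 (hB D hD).1).2)
  have hinj : Set.InjOn fD B := fun D hD E hE e => by rw [← hfD D hD, ← hfD E hE, e]
  have key := level (pr := fun p : Nat.Primes => p.1) Subtype.val_injective
    ((Nat.primesLE X).subtype Nat.Prime) (B.image fD) (l := l) (T := T) (F := F) (Q := Q) (K := K)
    h1 h2 (fun g hg => by
      obtain ⟨D, hD, rfl⟩ := mem_image.1 hg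
      obtain ⟨h3, h4⟩ := mem_SF.1 (hB D hD).1
      refine ⟨fun p hp => mem_subtype.2 (Nat.mem_primesLE.2
        ⟨((Nat.le_of_mem_primeFactors (mem_subtype.1 hp)).trans h3).trans hQ, p.2⟩),
        (hfD D hD).le.trans h3, fun p hp h5 => ?_⟩
      exact p.2.ne_one (Nat.eq_one_of_dvd_coprimes (hB D hD).2
        (Nat.dvd_of_mem_primeFactors (mem_subtype.1 hp)) ((ZMod.natCast_eq_zero_iff _ _).1 h5)))
    (fun f hf => by
      refine le_trans ?_ (hK _ hf)
      have h3 : #f.powerset ≤ #(∏ p ∈ f, p.1).divisors :=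
        card_le_card_of_injOn (fun g => ∏ p ∈ g, p.1) (fun g hg => by
          simp only [mem_coe] at hg ⊢
          exact Nat.mem_divisors.2 ⟨prod_dvd_prod_of_subset _ _ _ (mem_powerset.1 hg),
            (prod_pr_pos (pr := fun p : Nat.Primes => p.1) f).ne'⟩)
          fun g _ g' _ e => prod_pr_injective (pr := fun p : Nat.Primes => p.1)
            Subtype.val_injective e
      rw [card_powerset] at h3
      exact_mod_cast h3) hK0 hZ
  rw [sum_image hinj, sum_image hinj] at key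
  have e1 : ∑ D ∈ B, ∏ p ∈ fD D, 1 / (((p.1 : ℕ) : ℝ) - 1) = ∑ D ∈ B, ip D :=
    sum_congr rfl fun D _ => prod_sub _ (hpf D) fun p => 1 / ((p : ℝ) - 1)
  have e2 : ∏ p ∈ (Nat.primesLE X).subtype Nat.Prime, (1 + 1 / (((p.1 : ℕ) : ℝ) - 1))
      ≤ Real.exp (2 * Th X R η) := by
    rw [prod_sub _ (fun p hp => (Nat.mem_primesLE.1 hp).2) fun p => 1 + 1 / ((p : ℝ) - 1)]
    refine le_trans (prod_le_prod (fun p hp => ?_) fun p hp => ?_) (euler_le_Th X R η)
    all_goals
      have := two_le_cast (Nat.mem_primesLE.1 hp).2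
      have h3 : 0 ≤ 1 / ((p : ℝ) - 1) := div_nonneg zero_le_one (by linarith)
    · linarith
    · have := le_mul_of_one_le_left h3 (Real.one_le_rpow (one_le_sm R (p + 1)) hη)
      linarith
  rw [e1] at key
  refine le_trans ?_ (key.trans (add_le_add_right (mul_le_mul_of_nonneg_left e2 (by positivity)) _))
  refine cover S B (fun D N => ∃ m ∈ A₁, ∃ n ∈ A₂, ∃ t, t < T ∧ N = m * n * t ∧ N ≡ l [MOD D])
    _ h fun D _ S₁ hS₁ => ?_
  refine cover S₁ A₁ (fun m N => ∃ n ∈ A₂, ∃ t, t < T ∧ N = m * n * t ∧ N ≡ l [MOD D])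
    _ (fun N hN => (hS₁ N hN).2) fun m _ S₂ hS₂ => ?_
  refine cover S₂ A₂ (fun n N => ∃ t, t < T ∧ N = m * n * t ∧ N ≡ l [MOD D])
    _ (fun N hN => (hS₂ N hN).2) fun n _ S₃ hS₃ => ?_
  refine cover S₃ (range T) (fun t N => N = m * n * t ∧ N ≡ l [MOD D])
    _ (fun N hN => by simpa using (hS₃ N hN).2) fun t _ S₄ hS₄ => ?_
  rcases S₄.eq_empty_or_nonempty with rfl | ⟨N, hN⟩
  · simp only [card_empty, Nat.cast_zero]
    exact prod_nonneg fun _ _ => by split_ifs <;> norm_num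
  · obtain ⟨-, h3, h4⟩ := hS₄ N hN
    rw [prod_eq_one fun p hp => if_pos ((ZMod.natCast_eq_natCast_iff _ _ _).2
      ((h3 ▸ h4).of_dvd (Nat.dvd_of_mem_primeFactors (mem_subtype.1 hp))))]
    exact_mod_cast card_le_one.2 fun a ha b hb => (hS₄ a ha).2.1.trans (hS₄ b hb).2.1.symm

end Pool.Agent.Lib.MP_28260b_nt.Sp
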