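import Pool.Agent.Lib.MP_28260b_nt.Sp.M

/-! Classification of the solutions outside the family of friends. -/

namespace Pool.Agent.Lib.MP_28260b_nt.Sp

open Finset ArithmeticFunction ArithmeticFunction.sigma

def Exc (l n : ℕ) : Prop := ∃ a b p q : ℕ, p.Prime ∧ q.Prime ∧ ¬ p ∣ a ∧ ¬ q ∣ b ∧ n = a * p ∧
  n + l = b * q ∧ a = b + l ∧ σ 1 a * b = σ 1 b * a

def C1 (y N : ℕ) : Prop := ∃ b, y < b ∧ b ^ 2 ∣ N

def CB (y v N : ℕ) : Prop := ∃ (a : ℕ) (t : ℤ), 0 < a ∧ a ≤ y ^ (2 * v + 1) ∧ t ≠ 0 ∧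
  t.natAbs ≤ y ^ (2 * v + 2) ∧ (a * σ 1 N : ℤ) = σ 1 a * (N + t) ∧
  ∃ D k, N = D * k ∧ D.Coprime k ∧ y ^ (19 * v) < D ∧ D ≤ y ^ (22 * v + 2)

def CC (y R J g X l n : ℕ) : Prop := ∃ D E G, D ∈ SF X ∧ E ∈ SF X ∧ D ∣ n ∧ E ∣ n + l ∧
  D * E ≤ y ^ (J + 2) ∧ G ∣ σ 1 D ∧ G ∣ σ 1 E ∧ (y ^ g ≤ G ∧ ∀ r, r.Prime → r ∣ G → R < r)

def CL (y R N : ℕ) : Prop := ∃ p, p.Prime ∧ p ∣ N ∧ y ^ 6 ≤ sm R (p + 1)

def CM (y R A w₁ w₂ e₁ e₂ l N : ℕ) : Prop := ∃ D m n, D ∈ SF (y ^ (w₂ + A)) ∧ D.Coprime l ∧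
  y ^ e₂ ≤ sm R (σ 1 D) ∧ N ≡ l [MOD D] ∧ m * n ∣ N ∧ Med y R w₁ A e₁ m ∧ Med y R w₁ A e₁ n

lemma sig_mul_gt {l k : ℕ} (hl : 0 < l) (hk : 2 ≤ k) : σ 1 l * k < σ 1 (l * k) := by
  have h1 : 1 ∉ l.divisors.image (· * k) := fun h => by
    obtain ⟨d, -, hd⟩ := mem_image.1 h
    have := Nat.eq_one_of_mul_eq_one_left hd
    omega
  have h2 : ∑ d ∈ insert 1 (l.divisors.image (· * k)), d ≤ ∑ d ∈ (l * k).divisors, d := by
    refine sum_le_sum_of_subset fun d hd => Nat.mem_divisors.2 ⟨?_, by positivity⟩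
    rcases mem_insert.1 hd with rfl | hd
    · exact one_dvd _
    · obtain ⟨e, he, rfl⟩ := mem_image.1 hd
      exact Nat.mul_dvd_mul_right (Nat.dvd_of_mem_divisors he) k
  rw [sum_insert h1, sum_image fun a _ b _ e => Nat.eq_of_mul_eq_mul_right (by omega) e,
    ← sum_mul] at h2
  rw [sigma_one_apply, sigma_one_apply]
  omega

lemma max_prime {N : ℕ} (hN : 1 < N) : ∃ p, p.Prime ∧ p ∣ N ∧ ∀ r, r.Prime → r ∣ N → r ≤ p := by
  have h := Nat.nonempty_primeFactors.2 hN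
  have h1 := max'_mem _ h
  exact ⟨_, Nat.prime_of_mem_primeFactors h1, Nat.dvd_of_mem_primeFactors h1, fun r a b =>
    le_max' _ _ (Nat.mem_primeFactors.2 ⟨a, b, by omega⟩)⟩

lemma le_of_mul_pow {y a b c n : ℕ} (hy : 0 < y) (h : y ^ c ≤ n * y ^ b) (h2 : a + b ≤ c) :
    y ^ a ≤ n := by
  refine Nat.le_of_mul_le_mul_right (c := y ^ b) ?_ (by positivity)
  rw [← pow_add]
  exact (Nat.pow_le_pow_right hy h2).trans h

lemma le_pow_of_mul {y a b c n : ℕ} (hy : 0 < y) (h : n * y ^ b ≤ y ^ c) (h2 : c ≤ a + b) :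
    n ≤ y ^ a := by
  refine Nat.le_of_mul_le_mul_right (c := y ^ b) ?_ (by positivity)
  rw [← pow_add]
  exact h.trans (Nat.pow_le_pow_right hy h2)

lemma ro_unit {R s N d K : ℕ} (hN : Squarefree N) (hs : s.Coprime N) (hs0 : s ≠ 0) (h : d ∣ N)
    (hK : ro R (σ 1 (s * N)) ≤ K) : ro R (σ 1 d) ≤ K :=
  (Nat.le_of_dvd (ro_pos _ _) (ro_dvd R (sig_ne (mul_ne_zero hs0 hN.ne_zero))
    (sig_dvd hN hs h))).trans hK

lemma sm_big {y R B e c d : ℕ} (hy : 0 < y) (hd : y ^ c ≤ d) (h : ro R (σ 1 d) ≤ y ^ B)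
    (he : e + B ≤ c) : y ^ e ≤ sm R (σ 1 d) := by
  have hd0 : d ≠ 0 := by have : 0 < y ^ c := by positivity
                         omega
  refine le_of_mul_pow hy ?_ he
  calc y ^ c ≤ σ 1 d := hd.trans (le_sig d)
    _ = _ := (sm_mul_ro R (sig_ne hd0)).symm
    _ ≤ _ := Nat.mul_le_mul_left _ h

lemma small_primes {y R A B s N : ℕ} (hy : 0 < y) (hAB : B + 6 ≤ A) (hN : Squarefree N)
    (hs : s.Coprime N) (hs0 : s ≠ 0) (hK : ro R (σ 1 (s * N)) ≤ y ^ B) (hL : ¬ CL y R (s * N))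
    (p : ℕ) (hp : p.Prime) (h : p ∣ N) : p ≤ y ^ A := by
  have h1 := ro_unit hN hs hs0 h hK
  rw [sig_prime hp] at h1
  have h2 : sm R (p + 1) ≤ y ^ 6 := by
    by_contra h3
    exact hL ⟨p, hp, h.mul_left _, by omega⟩
  have h3 := Nat.mul_le_mul h2 h1
  rw [sm_mul_ro R (by omega), ← pow_add] at h3
  exact (Nat.le_succ p).trans (h3.trans (Nat.pow_le_pow_right hy (by omega)))

lemma mkB {y v s N a : ℕ} {t : ℤ} (hy : 2 ≤ y) (hv : 1 ≤ v) (hN : Squarefree N) (hs : s.Coprime N)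
    (hbig : y ^ (20 * v) ≤ N) (hp : ∀ p, p.Prime → p ∣ N → p ≤ y ^ (2 * v + 2)) (ha : 0 < a)
    (ha' : a ≤ y ^ (2 * v + 1)) (ht : t ≠ 0) (ht' : t.natAbs ≤ y ^ (2 * v + 2))
    (h : (a * σ 1 (s * N) : ℤ) = σ 1 a * ((s * N : ℕ) + t)) : CB y v (s * N) := by
  have hy0 : 0 < y := by omega
  obtain ⟨D, h1, h2, h3⟩ := mindiv hbig (Nat.pow_pos hy0) (Nat.pow_pos hy0) hp
  obtain ⟨k, h4, h5⟩ := unit_of hN hs h1
  refine ⟨a, t, ha, ha', ht, ht', h, D, k, h4, h5,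
    lt_of_lt_of_le (Nat.pow_lt_pow_right hy (by omega)) h2, h3.trans ?_⟩
  rw [← pow_add]
  exact Nat.pow_le_pow_right hy0 (by omega)

theorem classify {y R l v J j A B g w₁ w₂ e₁ e₂ n : ℕ} (hy : 2 ≤ y) (hl : 0 < l) (hly : l ≤ y)
    (hJ : J = 40 * v) (hj : j + 1 = J) (hg : 252 + 1681 * g ≤ B) (hAB : B + 6 ≤ A)
    (h₁ : 2 * w₁ + 6 * A = J) (h₂ : w₂ + 3 * A = w₁) (h₃ : e₁ + B = w₁) (h₄ : e₂ + B + 1 = w₂)
    (hn0 : 0 < n) (hn : n ≤ y ^ J) (hσ : σ 1 n = σ 1 (n + l)) (hE : ¬ Exc l n) :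
    n * y ≤ y ^ J ∨ C1 y n ∨ C1 y (n + l) ∨
      (∃ a b, 0 < a ∧ 0 < b ∧ a * b ≤ y ^ j ∧ CA l a b n) ∨ CB y v n ∨ CB y v (n + l) ∨
      CC y R J g (2 * y ^ J) l n ∨ CL y R n ∨ CL y R (n + l) ∨ CM y R A w₁ w₂ e₁ e₂ l (n + l) := by
  have hy0 : 0 < y := by omega
  have hpw : ∀ {a b : ℕ}, a ≤ b → y ^ a ≤ y ^ b := fun h => Nat.pow_le_pow_right hy0 h
  have hyJ : y ≤ y ^ J := Nat.le_self_pow (by omega) y
  have hm : n + l ≤ y ^ (J + 1) := by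
    have := Nat.mul_le_mul_left (y ^ J) hy
    rw [pow_succ]; omega
  by_cases c0 : n * y ≤ y ^ J
  · exact Or.inl c0
  refine Or.inr ?_
  rcases split n y hn0 with c1 | ⟨s, N, e1, s1, N1, k1⟩
  · exact Or.inl c1
  refine Or.inr ?_
  rcases split (n + l) y (by omega) with c1 | ⟨s', N', e2, s2, N2, k2⟩
  · exact Or.inl c1
  refine Or.inr ?_
  have s10 : s ≠ 0 := by rintro rfl; omega
  have s20 : s' ≠ 0 := by rintro rfl; omega
  have b1 : y ^ J ≤ N * y ^ 4 := by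
    calc y ^ J ≤ s * N * y := by rw [← e1]; omega
      _ ≤ y ^ 3 * N * y := by gcongr
      _ = _ := by ring
  have b2 : y ^ J ≤ N' * y ^ 4 := by
    calc y ^ J ≤ s' * N' * y := by
          rw [← e2]; exact (not_le.1 c0).le.trans (Nat.mul_le_mul_right _ (Nat.le_add_right _ _))
      _ ≤ y ^ 3 * N' * y := by gcongr
      _ = _ := by ring
  have d1 : N ∣ n := ⟨s, by rw [e1]; ring⟩
  have d2 : N' ∣ n + l := ⟨s', by rw [e2]; ring⟩
  rcases Nat.lt_or_ge (y ^ B) (ro R (σ 1 n)) with hro | hro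
  swap
  · refine Or.inr (Or.inr (Or.inr (Or.inr ?_)))
    by_cases c2 : CL y R n
    · exact Or.inl c2
    by_cases c3 : CL y R (n + l)
    · exact Or.inr (Or.inl c3)
    refine Or.inr (Or.inr ?_)
    have r1 : ro R (σ 1 (s * N)) ≤ y ^ B := e1 ▸ hro
    have r2 : ro R (σ 1 (s' * N')) ≤ y ^ B := e2 ▸ hσ ▸ hro
    have p1 := small_primes hy0 hAB N1 k1 s10 r1 (e1 ▸ c2)
    have p2 := small_primes hy0 hAB N2 k2 s20 r2 (e2 ▸ c3)
    obtain ⟨D, D1, D2, D3⟩ := mindiv (le_of_mul_pow (a := w₂) hy0 b1 (by omega))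
      (Nat.pow_pos hy0) (Nat.pow_pos hy0) p1
    obtain ⟨m, m1, m2, m3⟩ := mindiv (le_of_mul_pow (a := w₁) hy0 b2 (by omega))
      (Nat.pow_pos hy0) (Nat.pow_pos hy0) p2
    rw [← pow_add, add_comm] at D3 m3
    obtain ⟨N'', rfl⟩ := m1
    have b3 : y ^ J ≤ N'' * y ^ (w₁ + A + 4) := by
      calc y ^ J ≤ m * N'' * y ^ 4 := b2
        _ ≤ y ^ (w₁ + A) * N'' * y ^ 4 := by gcongr
        _ = _ := by ring
    obtain ⟨m', m4, m5, m6⟩ := mindiv (le_of_mul_pow (a := w₁) hy0 b3 (by omega))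
      (Nat.pow_pos hy0) (Nat.pow_pos hy0) fun p a b => p2 p a (b.mul_left _)
    rw [← pow_add, add_comm] at m6
    obtain ⟨D', hD'⟩ := Nat.gcd_dvd_left D l
    have hDs : Squarefree (D.gcd l * D') := hD' ▸ N1.squarefree_of_dvd D1
    have hD'D : D' ∣ D := Dvd.intro_left _ hD'.symm
    have hc : D'.Coprime l := Nat.eq_one_of_dvd_coprimes (Nat.coprime_of_squarefree_mul hDs)
      (Nat.dvd_gcd ((Nat.gcd_dvd_left _ _).trans hD'D) (Nat.gcd_dvd_right _ _)) (Nat.gcd_dvd_left _ _)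
    have hD'b : y ^ w₂ ≤ D' * y ^ 1 := by
      have := (Nat.gcd_le_right D hl).trans hly
      calc y ^ w₂ ≤ D.gcd l * D' := hD' ▸ D2
        _ ≤ y * D' := Nat.mul_le_mul_right _ this
        _ = _ := by ring
    refine ⟨D', m, m', mem_SF.2 ⟨(Nat.le_of_dvd (lt_of_lt_of_le (by positivity) D2) hD'D).trans D3,
      hDs.of_mul_right⟩, hc, sm_big hy0 (le_of_mul_pow (a := e₂ + B) hy0 hD'b (by omega))
        (ro_unit N1 k1 s10 (hD'D.trans D1) r1) le_rfl, ?_,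
      (Nat.mul_dvd_mul_left m m4).trans d2,
      ⟨N2.of_mul_left, m2, m3, sm_big hy0 m2 (ro_unit N2 k2 s20 (Dvd.intro _ rfl) r2) h₃.le⟩,
      ⟨N2.of_mul_right.squarefree_of_dvd m4, m5, m6,
        sm_big hy0 m5 (ro_unit N2 k2 s20 (m4.mul_left _) r2) h₃.le⟩⟩
    exact (Nat.modEq_iff_dvd' (by omega)).2 (by simpa using (hD'D.trans D1).trans d1) |>.symm
  have hv : 1 ≤ v := by omega
  have g1 : y ^ (20 * v) ≤ N := le_of_mul_pow hy0 b1 (by omega)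
  have g2 : y ^ (20 * v) ≤ N' := le_of_mul_pow hy0 b2 (by omega)
  have g0 : 1 < y ^ (20 * v) := Nat.one_lt_pow (by omega) hy
  obtain ⟨p, hp, p1, p2⟩ := max_prime (g0.trans_le g1)
  obtain ⟨q, hq, q1, q2⟩ := max_prime (g0.trans_le g2)
  obtain ⟨a, a1, a2⟩ := unit_of N1 k1 p1
  obtain ⟨b, b4, b5⟩ := unit_of N2 k2 q1
  rw [← e1] at a1
  rw [← e2] at b4
  have a0 : 0 < a := Nat.pos_of_ne_zero (by rintro rfl; omega)
  have b0 : 0 < b := Nat.pos_of_ne_zero (by rintro rfl; omega)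
  have σ1 : σ 1 n = (p + 1) * σ 1 a := by rw [a1, sig_mul a2, sig_prime hp]
  have σ2 : σ 1 (n + l) = (q + 1) * σ 1 b := by rw [b4, sig_mul b5, sig_prime hq]
  rcases Nat.lt_or_ge (p * q) (y ^ (J + 2)) with hpq | hpq
  swap
  · refine Or.inl ⟨a, b, a0, b0, le_pow_of_mul (b := J + 2) (c := J + (J + 1)) hy0 ?_ (by omega),
      p, q, by rw [a1]; ring, by rw [b4]; ring, by rw [mul_comm, ← σ1, hσ, σ2, mul_comm], fun h => ?_⟩
    · calc a * b * y ^ (J + 2) ≤ a * b * (p * q) := Nat.mul_le_mul_left _ hpq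
        _ = n * (n + l) := by rw [b4]; conv_rhs => rw [a1]
                              ring
        _ ≤ _ := by rw [pow_add]; exact Nat.mul_le_mul hn hm
    · refine hE ⟨a, b, p, q, hp, hq, hp.coprime_iff_not_dvd.1 a2, hq.coprime_iff_not_dvd.1 b5,
        by rw [a1]; ring, by rw [b4]; ring, ?_, h⟩
      have h5 : (p + 1) * a = (q + 1) * b := by
        refine Nat.eq_of_mul_eq_mul_right (Nat.pos_of_ne_zero (sig_ne b0.ne')) ?_
        have h6 : (p + 1) * σ 1 a = (q + 1) * σ 1 b := by rw [← σ1, hσ, σ2]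
        calc (p + 1) * a * σ 1 b = (p + 1) * (σ 1 b * a) := by ring
          _ = (p + 1) * σ 1 a * b := by rw [← h]; ring
          _ = _ := by rw [h6]; ring
      rw [add_mul, add_mul] at h5
      omega
  refine Or.inr ?_
  have hyv : y ≤ y ^ (2 * v + 1) := Nat.le_self_pow (by omega) y
  have hyv2 : 2 * y ^ (2 * v + 1) ≤ y ^ (2 * v + 2) := by
    rw [pow_succ y (2 * v + 1), mul_comm]; exact Nat.mul_le_mul_left _ hy
  rcases Nat.lt_or_ge q (y ^ (38 * v)) with hq' | hq'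
  swap
  · left
    have hb : b ≤ y ^ (2 * v + 1) := le_pow_of_mul (b := 38 * v) hy0
      (le_trans (by rw [b4, mul_comm]; exact Nat.mul_le_mul_right _ hq') hm) (by omega)
    have hps : p ≤ y ^ (2 * v + 2) := le_pow_of_mul (b := 38 * v) hy0
      ((Nat.mul_le_mul_left _ hq').trans hpq.le) (by omega)
    rw [e1]
    refine mkB (a := b) (t := (l + b : ℕ)) hy hv N1 k1 g1 (fun r a b => (p2 r a b).trans hps) b0 hb
      (by omega) (by rw [Int.natAbs_natCast]; omega) ?_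
    rw [← e1, hσ, σ2]
    zify at b4
    push_cast
    linear_combination (-(σ 1 b : ℤ)) * b4
  refine Or.inr ?_
  rcases Nat.lt_or_ge p (y ^ (38 * v)) with hp' | hp'
  swap
  · left
    have ha : a ≤ y ^ (2 * v + 1) := le_pow_of_mul (b := 38 * v) hy0
      (le_trans (by rw [a1, mul_comm]; exact Nat.mul_le_mul_right _ hp') hn) (by omega)
    have hqs : q ≤ y ^ (2 * v + 2) := le_pow_of_mul (b := 38 * v) hy0
      (le_trans (by rw [mul_comm]; exact Nat.mul_le_mul_right _ hp') hpq.le) (by omega)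
    have hal : a ≠ l := by
      rintro rfl
      have h5 := sig_mul_gt a0 (show 2 ≤ p + 1 by have := hp.pos; omega)
      rw [show a * (p + 1) = n + a by rw [a1]; ring, ← hσ, σ1, mul_comm] at h5
      omega
    rw [e2]
    refine mkB (a := a) (t := (a : ℤ) - l) hy hv N2 k2 g2 (fun r a b => (q2 r a b).trans hqs) a0 ha
      (by omega) (by omega) ?_
    rw [← e2, ← hσ, σ1]
    zify at a1
    push_cast
    linear_combination (-(σ 1 a : ℤ)) * a1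
  refine Or.inr (Or.inl ?_)
  have hV : (y ^ v) ^ 2 = y ^ (2 * v) := by rw [← pow_mul, mul_comm]
  have hV2 : y ^ (J + 1) ≤ (y ^ v) ^ 41 := by rw [← pow_mul]; exact hpw (by omega)
  have n1 : N ≤ n := Nat.le_of_dvd hn0 d1
  have n2 : N' ≤ n + l := Nat.le_of_dvd (by omega) d2
  obtain ⟨D, G₁, D1, D2, D3, D4, D5⟩ := bins (V := y ^ v) (P := max p (y ^ (2 * v)))
    (Nat.pow_pos hy0) (hV ▸ le_max_right _ _) (sig_ne s10) 41 N (ro R (σ 1 n)) N1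
    (fun r a b => (p2 r a b).trans (le_max_left _ _)) (by omega)
    (by rw [← sig_mul k1, ← e1]; exact ro_dvd_self R (sig_ne hn0.ne'))
  obtain ⟨E, G, E1, E2, E3, E4, E5⟩ := bins (V := y ^ v) (P := max q (y ^ (2 * v)))
    (Nat.pow_pos hy0) (hV ▸ le_max_right _ _) (sig_ne s20) 41 N' G₁ N2
    (fun r a b => (q2 r a b).trans (le_max_left _ _)) (by omega)
    (by rw [← sig_mul k2, ← e2, ← hσ]; exact D3.trans (ro_dvd_self R (sig_ne hn0.ne')))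
  have t1 : ∀ {s : ℕ}, s ≤ y ^ 3 → σ 1 s ≤ y ^ 6 := fun {s} h =>
    (sig_le s).trans ((Nat.pow_le_pow_left h 2).trans (by rw [← pow_mul]))
  refine ⟨D, E, G, mem_SF.2 ⟨(Nat.le_of_dvd hn0 (D1.trans d1)).trans (by omega),
    N1.squarefree_of_dvd D1⟩, mem_SF.2 ⟨(Nat.le_of_dvd (by omega) (E1.trans d2)).trans (by omega),
    N2.squarefree_of_dvd E1⟩, D1.trans d1, E1.trans d2, (Nat.mul_le_mul D2 E2).trans ?_,
    E3.trans D4, E4, ?_, fun r a b => prime_dvd_ro a (b.trans (E3.trans D3))⟩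
  · have u1 : y ^ (38 * v) * y ^ (2 * v) ≤ y ^ (J + 2) := by rw [← pow_add]; exact hpw (by omega)
    have u2 : y ^ (2 * v) ≤ y ^ (38 * v) := hpw (by omega)
    rcases max_choice p (y ^ (2 * v)) with h | h <;> rcases max_choice q (y ^ (2 * v)) with h' | h' <;>
      rw [h, h']
    · exact hpq.le
    · exact (Nat.mul_le_mul_right _ hp'.le).trans u1
    · rw [mul_comm]; exact (Nat.mul_le_mul_right _ hq'.le).trans u1
    · exact (Nat.mul_le_mul_right _ u2).trans u1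
  · by_contra hG
    have u1 : G₁ ≤ y ^ 6 * (y ^ g) ^ 41 :=
      E5.trans (Nat.mul_le_mul (t1 s2) (Nat.pow_le_pow_left (by omega) _))
    have u2 := D5.trans (Nat.mul_le_mul (t1 s1) (Nat.pow_le_pow_left u1 41))
    rw [← pow_mul, ← pow_add, ← pow_mul, ← pow_add] at u2
    have := hpw (show 6 + (6 + g * 41) * 41 ≤ B by omega)
    omega

end Pool.Agent.Lib.MP_28260b_nt.Sp
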