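import Pool.Agent.Lib.MP_28260b_nt.Sp.H

/-! The main case: both numbers have only small primes and a smooth divisor sum. -/

namespace Pool.Agent.Lib.MP_28260b_nt.Sp

open Finset ArithmeticFunction ArithmeticFunction.sigma Pool.Agent.Lib.LargeSieve

/-- A squarefree factor of medium size whose divisor sum has a large smooth part. -/
def Med (y R w A e m : ℕ) : Prop :=
  Squarefree m ∧ y ^ w ≤ m ∧ m ≤ y ^ (w + A) ∧ y ^ e ≤ sm R (σ 1 m)

lemma card_med (S : Finset ℕ) {y R A w e X P : ℕ} {η : ℝ} (hy : 0 < y) (hη : 0 ≤ η)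
    (hX : y ^ (w + A) ≤ X) (h : ∀ m ∈ S, m < P ∧ Med y R w A e m) :
    (#S : ℝ) ≤ P * (((y : ℝ) ^ e) ^ (-η) * Real.exp (2 * Th X R η)) := by
  refine le_trans ?_ (mul_le_mul_of_nonneg_left (rankin S X R (w := (y : ℝ) ^ e) (by positivity) hη
    fun m hm => ⟨mem_SF.2 ⟨(h m hm).2.2.2.1.trans hX, (h m hm).2.1⟩,
      by exact_mod_cast (h m hm).2.2.2.2⟩) (by positivity))
  rw [card_eq_sum_ones, mul_sum]
  push_cast
  refine sum_le_sum fun m hm => ?_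
  obtain ⟨h1, h2, -⟩ := h m hm
  have h3 : (0 : ℝ) < m := by exact_mod_cast Nat.pos_of_ne_zero h2.ne_zero
  have h4 : (m : ℝ) ≤ P := by exact_mod_cast h1.le
  refine le_trans ?_ (mul_le_mul_of_nonneg_left (inv_le_ip h2) (by positivity))
  rw [mul_one_div, one_le_div h3]
  exact h4

theorem caseM (S : Finset ℕ) {y R l J A w₁ w₂ e₁ e₂ X : ℕ} {η : ℝ} (hy : 2 ≤ y) (hη : 0 ≤ η)
    (hX : X = 2 * y ^ J) (hA : 2 ≤ A) (h₁ : 2 * w₁ + 6 * A = J) (h₂ : w₂ + 3 * A = w₁)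
    (h₃ : 2 * A + 1 ≤ w₁) (hlg : 1 + 2 * Real.log (2 * X) ≤ y)
    (hτ : ∀ v : ℕ, v ≤ X → (#v.divisors : ℝ) ≤ y)
    (h : ∀ N ∈ S, N ≤ X ∧ ∃ D m n, D ∈ SF (y ^ (w₂ + A)) ∧ D.Coprime l ∧
      y ^ e₂ ≤ sm R (σ 1 D) ∧ N ≡ l [MOD D] ∧ m * n ∣ N ∧ Med y R w₁ A e₁ m ∧ Med y R w₁ A e₁ n) :
    (#S : ℝ) ≤ ((Nat.log 2 X : ℝ) + 1) ^ 2 *
      (12 * (y : ℝ) ^ J * (((y : ℝ) ^ (2 * e₁ + e₂)) ^ (-η) * Real.exp (2 * Th X R η) ^ 3)
        + 244 * ((Nat.log 2 X : ℝ) + 1) * ((y : ℝ) ^ J / y) * Real.exp (2 * Th X R η)) := by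
  classical
  have hy0 : 0 < y := by omega
  have hy' : (2 : ℝ) ≤ y := by exact_mod_cast hy
  have hy1 : (1 : ℝ) ≤ y := by linarith
  have hpw : ∀ a, a ≤ J → y ^ a ≤ X := fun a ha => by
    have := Nat.pow_le_pow_right hy0 ha
    omega
  set E := Real.exp (2 * Th X R η) with hE
  set Lg : ℝ := (Nat.log 2 X : ℝ) + 1 with hLg
  have hE0 : 0 < E := Real.exp_pos _
  have hL1 : 1 ≤ Lg := le_add_of_nonneg_left (by positivity)
  set B := (SF (y ^ (w₂ + A))).filter fun D => D.Coprime l ∧ y ^ e₂ ≤ sm R (σ 1 D) with hB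
  let AA : ℕ → Finset ℕ := fun i => (range (2 ^ (i + 1))).filter fun m => 2 ^ i ≤ m ∧ Med y R w₁ A e₁ m
  have hAA : ∀ m, Med y R w₁ A e₁ m → Nat.log 2 m ∈ range (Nat.log 2 X + 1) ∧ m ∈ AA (Nat.log 2 m) :=
    fun m hm => ⟨mem_range.2 (Nat.lt_succ_of_le (Nat.log_mono_right
      (hm.2.2.1.trans (hpw _ (by omega))))), mem_filter.2 ⟨mem_range.2
        (Nat.lt_pow_succ_log_self one_lt_two m), Nat.pow_log_le_self 2 hm.1.ne_zero, hm⟩⟩
  refine (cover S (range (Nat.log 2 X + 1) ×ˢ range (Nat.log 2 X + 1))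
    (fun i N => ∃ D ∈ B, ∃ m ∈ AA i.1, ∃ n ∈ AA i.2, m * n ∣ N ∧ N ≡ l [MOD D])
    (fun _ => 12 * (y : ℝ) ^ J * (((y : ℝ) ^ (2 * e₁ + e₂)) ^ (-η) * E ^ 3)
        + 244 * Lg * ((y : ℝ) ^ J / y) * E) ?_ ?_).trans (le_of_eq ?_)
  · intro N hN
    obtain ⟨-, D, m, n, h1, h2, h3, h4, h5, h6, h7⟩ := h N hN
    exact ⟨(Nat.log 2 m, Nat.log 2 n), mem_product.2 ⟨(hAA m h6).1, (hAA n h7).1⟩, D,
      mem_filter.2 ⟨h1, h2, h3⟩, m, (hAA m h6).2, n, (hAA n h7).2, h5, h4⟩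
  · rintro ⟨i, j⟩ - T hT
    rcases T.eq_empty_or_nonempty with rfl | ⟨N0, hN0⟩
    · simp only [card_empty, Nat.cast_zero]; positivity
    obtain ⟨-, -, -, m0, hm0, n0, hn0, -⟩ := hT N0 hN0
    have hbd : ∀ i m, m ∈ AA i → (y : ℝ) ^ w₁ ≤ (2 ^ (i + 1) : ℕ) ∧
        ((2 ^ (i + 1) : ℕ) : ℝ) ≤ 2 * (y : ℝ) ^ (w₁ + A) := fun i m hm => by
      obtain ⟨h1, h2, -, h3, h4, -⟩ := mem_filter.1 hm
      have h5 := mem_range.1 h1
      constructor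
      · exact_mod_cast h3.trans h5.le
      · have : 2 ^ (i + 1) ≤ 2 * y ^ (w₁ + A) := by rw [pow_succ]; omega
        exact_mod_cast this
    obtain ⟨p1, p2⟩ := hbd i m0 hm0
    obtain ⟨q1, q2⟩ := hbd j n0 hn0
    have hT' : ((X / (2 ^ i * 2 ^ j) + 1 : ℕ) : ℝ) * ((2 ^ (i + 1) : ℕ) * (2 ^ (j + 1) : ℕ))
        ≤ 4 * X + (2 ^ (i + 1) : ℕ) * (2 ^ (j + 1) : ℕ) := by
      have h1 := Nat.div_mul_le_self X (2 ^ i * 2 ^ j)
      have : (X / (2 ^ i * 2 ^ j) + 1) * (2 ^ (i + 1) * 2 ^ (j + 1))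
          ≤ 4 * X + 2 ^ (i + 1) * 2 ^ (j + 1) := by
        rw [pow_succ, pow_succ]; nlinarith
      exact_mod_cast this
    have c1 := card_med (AA i) (X := X) (P := 2 ^ (i + 1)) hy0 hη (hpw (w₁ + A) (by omega))
      fun m hm => ⟨mem_range.1 (mem_filter.1 hm).1, (mem_filter.1 hm).2.2⟩
    have c2 := card_med (AA j) (X := X) (P := 2 ^ (j + 1)) hy0 hη (hpw (w₁ + A) (by omega))
      fun m hm => ⟨mem_range.1 (mem_filter.1 hm).1, (mem_filter.1 hm).2.2⟩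
    have c3 := rankin B X R (w := (y : ℝ) ^ e₂) (by positivity) hη fun D hD =>
      ⟨mem_SF.2 ⟨(mem_SF.1 (mem_filter.1 hD).1).1.trans (hpw _ (by omega)),
        (mem_SF.1 (mem_filter.1 hD).1).2⟩, by exact_mod_cast (mem_filter.1 hD).2.2⟩
    have hQ := hpw (w₂ + A) (by omega)
    have hb := fun Z h0 hZ => box T B (AA i) (AA j) (l := l) (P := 2 ^ (i + 1)) (M := 2 ^ (j + 1))
      (T := X / (2 ^ i * 2 ^ j) + 1) (F := y ^ A) (R := R) (K := y) (Z := Z) hη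
      (filter_subset _ _) (filter_subset _ _) hQ
      (fun D hD => ⟨(mem_filter.1 hD).1, (mem_filter.1 hD).2.1⟩)
      (fun v hv => hτ v (hv.trans hQ)) h0 hZ fun N hN => by
        obtain ⟨h1, D, hD, m, hm, n, hn, ⟨t, ht⟩, h2⟩ := hT N hN
        refine ⟨D, hD, m, hm, n, hn, t, Nat.lt_succ_of_le ((Nat.le_div_iff_mul_le
          (by positivity)).2 ?_), ht, h2⟩
        have h3 := Nat.mul_le_mul (mem_filter.1 hm).2.1 (mem_filter.1 hn).2.1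
        calc _ ≤ t * (m * n) := Nat.mul_le_mul_left _ h3
          _ = N := by rw [ht]; ring
          _ ≤ X := (h N h1).1
    rw [← hE] at c1 c2 c3 hb
    set P := 2 ^ (i + 1)
    set M := 2 ^ (j + 1)
    set T₀ := X / (2 ^ i * 2 ^ j) + 1
    have hP0 : (0 : ℝ) ≤ P := by positivity
    have hM0 : (0 : ℝ) ≤ M := by positivity
    have hPM : (P : ℝ) * M ≤ 4 * (y : ℝ) ^ (2 * w₁ + 2 * A) := by
      calc _ ≤ 2 * (y : ℝ) ^ (w₁ + A) * (2 * (y : ℝ) ^ (w₁ + A)) := by gcongr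
        _ = _ := by ring
    have hPM' : (y : ℝ) ^ (2 * w₁) ≤ (P : ℝ) * M := by
      calc _ = (y : ℝ) ^ w₁ * (y : ℝ) ^ w₁ := by ring
        _ ≤ _ := by gcongr
    have hX' : (X : ℝ) = 2 * (y : ℝ) ^ J := by rw [hX]; push_cast; ring
    have hTPM : (T₀ : ℝ) * (P * M) ≤ 12 * (y : ℝ) ^ J := by
      have := pow_le_pow_right₀ hy1 (show 2 * w₁ + 2 * A ≤ J by omega)
      linarith
    have hA0 : (0 : ℝ) < (y : ℝ) ^ A := by positivity
    have key : ∀ a : ℝ, a * ((y : ℝ) ^ A) ^ 2 ≤ P * M →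
        a * (P * M) ≤ ((P : ℝ) * M / (y : ℝ) ^ A) ^ 2 := fun a ha => by
      rw [div_pow, le_div_iff₀ (by positivity)]
      nlinarith [mul_le_mul_of_nonneg_right ha (mul_nonneg hP0 hM0)]
    have hyA : (y : ℝ) * ((y : ℝ) ^ A) ^ 2 ≤ (y : ℝ) ^ w₁ := by
      rw [← pow_mul, ← pow_succ']
      exact pow_le_pow_right₀ hy1 (by omega)
    have hZ := dyadic_bound P M (fun n => (ind (AA i) n : ℂ)) (fun n => (ind (AA j) n : ℂ))
      (fun n => by rw [Complex.norm_real]; exact abs_ind _ _)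
      (fun n => by rw [Complex.norm_real]; exact abs_ind _ _) (y ^ A) (y ^ (w₂ + A))
      (Nat.pow_pos hy0) ((P : ℝ) * M / (y : ℝ) ^ A) y (by positivity)
      (by
        have h1 : ((y ^ (w₂ + A) : ℕ) : ℝ) ≤ X := by exact_mod_cast hQ
        have := Real.log_le_log (show (0 : ℝ) < 2 * (y ^ (w₂ + A) : ℕ) by positivity)
          (mul_le_mul_of_nonneg_left h1 zero_le_two)
        linarith)
      (by push_cast; rw [div_mul_cancel₀ _ hA0.ne'])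
      (key _ (by nlinarith [mul_le_mul_of_nonneg_left (hyA.trans q1) hP0]))
      (key _ (by nlinarith [mul_le_mul_of_nonneg_left (hyA.trans p1) hM0]))
      (key _ (by
        refine le_trans ?_ hPM'
        push_cast
        rw [← pow_mul, ← pow_mul, ← pow_add, ← pow_add]
        exact pow_le_pow_right₀ hy1 (by omega)))
    refine (hb _ (by positivity) hZ).trans (add_le_add ?_ (mul_le_mul_of_nonneg_right ?_ hE0.le))
    · have e : ((y : ℝ) ^ (2 * e₁ + e₂)) ^ (-η)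
          = ((y : ℝ) ^ e₁) ^ (-η) * ((y : ℝ) ^ e₁) ^ (-η) * ((y : ℝ) ^ e₂) ^ (-η) := by
        rw [← Real.mul_rpow (by positivity) (by positivity),
          ← Real.mul_rpow (by positivity) (by positivity)]
        congr 1; ring
      have h0 : 0 ≤ ∑ D ∈ B, ip D := sum_nonneg fun D _ => ip_nonneg D
      calc _ ≤ P * (((y : ℝ) ^ e₁) ^ (-η) * E) * (M * (((y : ℝ) ^ e₁) ^ (-η) * E)) * T₀
            * (((y : ℝ) ^ e₂) ^ (-η) * E) := by gcongr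
        _ = T₀ * (P * M) * (((y : ℝ) ^ (2 * e₁ + e₂)) ^ (-η) * E ^ 3) := by rw [e]; ring
        _ ≤ _ := by gcongr
    · have h1 : ((Nat.log 2 (y ^ (w₂ + A)) : ℕ) : ℝ) + 1 ≤ Lg :=
        add_le_add_left (Nat.cast_le.2 (Nat.log_mono_right hQ)) 1
      have h2 : ((y ^ A : ℕ) : ℝ) * (P * M * y) ≤ 4 * ((y : ℝ) ^ J / y) := by
        rw [← mul_div_assoc, le_div_iff₀ (by linarith)]
        push_cast
        calc _ ≤ (y : ℝ) ^ A * (4 * (y : ℝ) ^ (2 * w₁ + 2 * A) * y) * y := by gcongr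
          _ = 4 * (y : ℝ) ^ (2 * w₁ + 3 * A + 2) := by ring
          _ ≤ _ := mul_le_mul_of_nonneg_left (pow_le_pow_right₀ hy1 (by omega)) (by norm_num)
      have h3 : (y : ℝ) / (y : ℝ) ^ A ≤ 1 / y := by
        rw [div_le_div_iff₀ hA0 (by linarith), one_mul, ← sq]
        exact pow_le_pow_right₀ hy1 hA
      have h4 : (T₀ : ℝ) * (2 * y) * ((((Nat.log 2 (y ^ (w₂ + A)) : ℕ) : ℝ) + 1)
          * (10 * ((P : ℝ) * M / (y : ℝ) ^ A))) ≤ 240 * Lg * ((y : ℝ) ^ J / y) := by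
        calc _ = 20 * (((Nat.log 2 (y ^ (w₂ + A)) : ℕ) : ℝ) + 1) * (T₀ * (P * M))
              * ((y : ℝ) / (y : ℝ) ^ A) := by ring
          _ ≤ 20 * Lg * (12 * (y : ℝ) ^ J) * (1 / y) := by gcongr
          _ = _ := by ring
      have h5 : 0 ≤ (y : ℝ) ^ J / y := by positivity
      nlinarith
  · rw [sum_const, card_product, card_range, nsmul_eq_mul]
    push_cast
    ring

end Pool.Agent.Lib.MP_28260b_nt.Sp
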