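import Pool.Agent.Lib.MP_28260b_nt.Sp.C
import Pool.Agent.Lib.MP_be93de_nt.Rough

/-! Rankin's trick for smooth parts of divisor sums. -/

namespace Pool.Agent.Lib.MP_28260b_nt.Sp

open Finset ArithmeticFunction ArithmeticFunction.sigma

noncomputable def ip (D : ℕ) : ℝ := ∏ p ∈ D.primeFactors, 1 / ((p : ℝ) - 1)

noncomputable def Th (X R : ℕ) (η : ℝ) : ℝ := ∑ p ∈ Nat.primesLE X, (sm R (p + 1) : ℝ) ^ η / p

noncomputable def EE (R : ℕ) (θ : ℝ) : ℝ :=
  Real.exp (4 * (R : ℝ) ^ θ * (Real.log (1 + Real.log R) + 38))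

lemma two_le_cast {p : ℕ} (hp : p.Prime) : (2 : ℝ) ≤ p := by exact_mod_cast hp.two_le

lemma ip_nonneg (D : ℕ) : 0 ≤ ip D := prod_nonneg fun p hp => by
  have := two_le_cast (Nat.prime_of_mem_primeFactors hp)
  exact div_nonneg zero_le_one (by linarith)

lemma inv_le_ip {D : ℕ} (hD : Squarefree D) : (1 : ℝ) / D ≤ ip D := by
  conv_lhs => rw [← Nat.prod_primeFactors_of_squarefree hD]
  push_cast
  rw [one_div, ← prod_inv_distrib]
  refine prod_le_prod (fun _ _ => by positivity) fun p hp => ?_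
  have := two_le_cast (Nat.prime_of_mem_primeFactors hp)
  rw [one_div]
  exact inv_anti₀ (by linarith) (by linarith)

lemma one_le_sm (R v : ℕ) : (1 : ℝ) ≤ sm R v := by exact_mod_cast sm_pos R v

lemma euler_le_Th (X R : ℕ) (η : ℝ) :
    ∏ p ∈ Nat.primesLE X, (1 + (sm R (p + 1) : ℝ) ^ η * (1 / ((p : ℝ) - 1)))
      ≤ Real.exp (2 * Th X R η) := by
  calc _ ≤ ∏ p ∈ Nat.primesLE X, (1 + 2 * ((sm R (p + 1) : ℝ) ^ η / p)) := by
        refine prod_le_prod (fun p hp => ?_) fun p hp => ?_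
        · have := two_le_cast (Nat.mem_primesLE.1 hp).2
          have h2 : (0 : ℝ) < p - 1 := by linarith
          positivity
        · have := two_le_cast (Nat.mem_primesLE.1 hp).2
          have h2 : 1 / ((p : ℝ) - 1) ≤ 2 / p := by
            rw [div_le_div_iff₀ (by linarith) (by linarith)]; linarith
          have h3 := mul_le_mul_of_nonneg_left h2 (show 0 ≤ (sm R (p + 1) : ℝ) ^ η by positivity)
          have e : (sm R (p + 1) : ℝ) ^ η * (2 / p) = 2 * ((sm R (p + 1) : ℝ) ^ η / p) := by ring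
          linarith
    _ ≤ _ := by
        unfold Th
        rw [mul_sum]
        exact Real.prod_one_add_le_exp_sum _ fun _ => by positivity

lemma rankin (S : Finset ℕ) (X R : ℕ) {w η : ℝ} (hw : 0 < w) (hη : 0 ≤ η)
    (h : ∀ D ∈ S, D ∈ SF X ∧ w ≤ sm R (σ 1 D)) :
    ∑ D ∈ S, ip D ≤ w ^ (-η) * Real.exp (2 * Th X R η) := by
  set g : ℕ → ℝ := fun p => (sm R (p + 1) : ℝ) ^ η * (1 / ((p : ℝ) - 1)) with hg
  calc _ ≤ ∑ D ∈ S, w ^ (-η) * ∏ p ∈ D.primeFactors, g p := by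
        refine sum_le_sum fun D hD => ?_
        obtain ⟨h1, h2⟩ := h D hD
        rw [sig_sqf (mem_SF.1 h1).2, sm_prod R _ _ (fun _ _ => by omega)] at h2
        have h3 := Real.rpow_le_rpow hw.le h2 hη
        push_cast at h3
        rw [← Real.finsetProd_rpow _ _ (fun _ _ => by positivity)] at h3
        rw [prod_mul_distrib, Real.rpow_neg hw.le, ← mul_assoc]
        refine le_mul_of_one_le_left (ip_nonneg D) ?_
        rw [inv_mul_eq_div, one_le_div (by positivity)]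
        exact h3
    _ = w ^ (-η) * ∑ T ∈ S.image Nat.primeFactors, ∏ p ∈ T, g p := by
        rw [← mul_sum, sum_image]
        intro D hD E hE e
        rw [← Nat.prod_primeFactors_of_squarefree (mem_SF.1 (h D hD).1).2,
          ← Nat.prod_primeFactors_of_squarefree (mem_SF.1 (h E hE).1).2, e]
    _ ≤ w ^ (-η) * ∑ T ∈ (Nat.primesLE X).powerset, ∏ p ∈ T, g p := by
        refine mul_le_mul_of_nonneg_left (sum_le_sum_of_subset_of_nonneg (fun T hT => ?_)
          fun T hT _ => prod_nonneg fun p hp => ?_) (by positivity)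
        · obtain ⟨D, hD, rfl⟩ := mem_image.1 hT
          exact mem_powerset.2 fun p hp => Nat.mem_primesLE.2
            ⟨(Nat.le_of_mem_primeFactors hp).trans (mem_SF.1 (h D hD).1).1,
              Nat.prime_of_mem_primeFactors hp⟩
        · have := two_le_cast (Nat.mem_primesLE.1 (mem_powerset.1 hT hp)).2
          have h2 : (0 : ℝ) < p - 1 := by linarith
          simp only [hg]
          positivity
    _ ≤ _ := by
        rw [← prod_one_add]
        exact mul_le_mul_of_nonneg_left (euler_le_Th X R η) (by positivity)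

lemma eul (S : Finset ℕ) (R : ℕ) {θ : ℝ} (h0 : 0 ≤ θ) (h1 : θ ≤ 1 / 2)
    (h : ∀ g ∈ S, ∀ p, p.Prime → p ∣ g → p ≤ R) : ∑ g ∈ S, (g : ℝ) ^ θ / g ≤ EE R θ := by
  let f : ℕ →* ℝ := ⟨⟨fun g => (g : ℝ) ^ θ / g, by simp⟩, fun a b => by
    simp only [Nat.cast_mul]
    rw [Real.mul_rpow (by positivity) (by positivity), div_mul_div_comm]⟩
  have hf : ∀ g, f g = (g : ℝ) ^ θ / g := fun _ => rfl
  have hf0 : ∀ g, 0 ≤ f g := fun g => by rw [hf]; positivity
  have hp : ∀ {p : ℕ}, p.Prime → f p ≤ 3 / 4 := fun {p} hp => by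
    have h2 := two_le_cast hp
    have h3 : (p : ℝ) ^ θ ≤ (p : ℝ) ^ (1 / 2 : ℝ) := Real.rpow_le_rpow_of_exponent_le (by linarith) h1
    rw [← Real.sqrt_eq_rpow] at h3
    have h4 : √(p : ℝ) ≤ 3 / 4 * p := Real.sqrt_le_iff.2 ⟨by positivity, by nlinarith⟩
    rw [hf, div_le_iff₀ (by linarith)]
    linarith
  have hs := (EulerProduct.summable_and_hasSum_smoothNumbers_prod_primesBelow_geometric (f := f)
    (fun {p} h => by rw [Real.norm_eq_abs, abs_of_nonneg (hf0 p)]; linarith [hp h]) (R + 1)).2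
  have h2 := sum_le_hasSum (S.subtype (· ∈ (R + 1).smoothNumbers)) (fun _ _ => hf0 _) hs
  rw [sum_subtype_of_mem (fun g => f g)
    (fun g hg => Nat.mem_smoothNumbers'.2 fun p a b => Nat.lt_succ_of_le (h g hg p a b))] at h2
  refine h2.trans ?_
  calc _ ≤ ∏ p ∈ Nat.primesLE R, (1 + 4 * ((R : ℝ) ^ θ * (1 / p))) := by
        refine prod_le_prod (fun p hq => ?_) fun p hq => ?_
        · have := hp (Nat.prime_of_mem_primesBelow hq)
          exact inv_nonneg.2 (by linarith)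
        · obtain ⟨h3, h4⟩ := Nat.mem_primesLE.1 hq
          have h5 := hp h4
          have h6 := hf0 p
          have h7 : f p ≤ (R : ℝ) ^ θ * (1 / p) := by
            rw [hf, mul_one_div]
            gcongr
          have h8 : (1 - f p)⁻¹ ≤ 1 + 4 * f p := by
            rw [inv_le_iff_one_le_mul₀ (by linarith)]
            nlinarith
          linarith
    _ ≤ Real.exp (∑ p ∈ Nat.primesLE R, 4 * ((R : ℝ) ^ θ * (1 / p))) :=
        Real.prod_one_add_le_exp_sum _ fun _ => by positivity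
    _ ≤ _ := by
        unfold EE
        rw [← mul_sum, ← mul_sum, mul_assoc]
        have := Pool.Agent.Lib.MP_be93de_nt.mertens2 R
        gcongr

lemma EE_pos (R : ℕ) (θ : ℝ) : 0 < EE R θ := Real.exp_pos _

lemma smsum (Y R : ℕ) {θ : ℝ} (h0 : 0 ≤ θ) (h1 : θ ≤ 1 / 2) :
    ∑ m ∈ Ioc 0 Y, (sm R m : ℝ) ^ θ / m ≤ EE R θ * (1 + Real.log Y) := by
  calc _ = ∑ i ∈ (Ioc 0 Y).image (fun m => (sm R m, ro R m)),
          ((i.1 : ℕ) : ℝ) ^ θ / i.1 * (1 / i.2) := by
        rw [sum_image]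
        · refine sum_congr rfl fun m hm => ?_
          rw [div_mul_div_comm, mul_one, ← Nat.cast_mul, sm_mul_ro R (mem_Ioc.1 hm).1.ne']
        · intro a ha b hb e
          rw [← sm_mul_ro R (mem_Ioc.1 ha).1.ne', ← sm_mul_ro R (mem_Ioc.1 hb).1.ne',
            (Prod.mk.inj e).1, (Prod.mk.inj e).2]
    _ ≤ ∑ i ∈ (Ioc 0 Y).image (sm R) ×ˢ Ioc 0 Y, ((i.1 : ℕ) : ℝ) ^ θ / i.1 * (1 / i.2) := by
        refine sum_le_sum_of_subset_of_nonneg (fun i hi => ?_) fun _ _ _ => by positivity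
        obtain ⟨m, hm, rfl⟩ := mem_image.1 hi
        obtain ⟨h2, h3⟩ := mem_Ioc.1 hm
        exact mem_product.2 ⟨mem_image_of_mem _ hm, mem_Ioc.2
          ⟨ro_pos _ _, (Nat.le_of_dvd h2 (ro_dvd_self R h2.ne')).trans h3⟩⟩
    _ ≤ _ := by
        rw [sum_product, ← sum_mul_sum _ _ (fun g : ℕ => (g : ℝ) ^ θ / g) fun r : ℕ => (1 : ℝ) / r]
        refine mul_le_mul (eul _ R h0 h1 fun g hg p hp h => ?_) (harm_le Y)
          (sum_nonneg fun _ _ => by positivity) (EE_pos _ _).le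
        obtain ⟨m, -, rfl⟩ := mem_image.1 hg
        exact prime_dvd_sm hp h

lemma Th_le_EE (X R : ℕ) {θ : ℝ} (h0 : 0 ≤ θ) (h1 : θ ≤ 1 / 2) : Th X R θ ≤ zz X * EE R θ := by
  calc _ ≤ ∑ p ∈ Nat.primesLE X, 2 * ((sm R (p + 1) : ℝ) ^ θ / (p + 1 : ℕ)) := by
        refine sum_le_sum fun p hp => ?_
        have h2 := mul_le_mul_of_nonneg_left (inv_le_succ (Nat.mem_primesLE.1 hp).2.pos)
          (show 0 ≤ (sm R (p + 1) : ℝ) ^ θ by positivity)
        rw [mul_one_div] at h2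
        exact h2.trans (le_of_eq (by ring))
    _ = 2 * ∑ m ∈ (Nat.primesLE X).image (· + 1), (sm R m : ℝ) ^ θ / m := by
        rw [← mul_sum, sum_image fun a _ b _ e => by simpa using e]
    _ ≤ 2 * ∑ m ∈ Ioc 0 (X + 1), (sm R m : ℝ) ^ θ / m := by
        refine mul_le_mul_of_nonneg_left (sum_le_sum_of_subset_of_nonneg (fun m hm => ?_)
          fun _ _ _ => by positivity) (by norm_num)
        obtain ⟨p, hp, rfl⟩ := mem_image.1 hm
        have := (Nat.mem_primesLE.1 hp).1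
        exact mem_Ioc.2 ⟨by omega, by omega⟩
    _ ≤ _ := by
        have := smsum (X + 1) R h0 h1
        unfold zz
        linarith

lemma Th_le (X R : ℕ) {T δ η : ℝ} (hT : 0 < T) (hδ : 0 ≤ δ) (hη : 0 ≤ η)
    (h1 : η * (1 + δ) ≤ 1 / 2) : Th X R η ≤ T * (Real.log (1 + Real.log X) + 38)
      + T ^ (-δ) * (zz X * EE R (η * (1 + δ))) := by
  calc _ ≤ ∑ p ∈ Nat.primesLE X, (T * (1 / p)
          + T ^ (-δ) * ((sm R (p + 1) : ℝ) ^ (η * (1 + δ)) / p)) := by
        refine sum_le_sum fun p _ => ?_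
        have hs := one_le_sm R (p + 1)
        rw [Real.rpow_mul (by linarith)]
        set F := (sm R (p + 1) : ℝ) ^ η with hF
        have hF0 : 0 < F := by positivity
        have h2 : F ≤ T + T ^ (-δ) * F ^ (1 + δ) := by
          rcases le_total F T with h | h
          · have : 0 ≤ T ^ (-δ) * F ^ (1 + δ) := by positivity
            linarith
          · have h3 := Real.rpow_le_rpow hT.le h hδ
            have h4 : 1 ≤ T ^ (-δ) * F ^ δ := by
              rw [Real.rpow_neg hT.le, inv_mul_eq_div, one_le_div (by positivity)]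
              exact h3
            rw [Real.rpow_add hF0, Real.rpow_one]
            nlinarith
        calc F / p ≤ (T + T ^ (-δ) * F ^ (1 + δ)) / p := by gcongr
          _ = _ := by ring
    _ ≤ _ := by
        rw [sum_add_distrib, ← mul_sum, ← mul_sum]
        exact add_le_add
          (mul_le_mul_of_nonneg_left (Pool.Agent.Lib.MP_be93de_nt.mertens2 X) hT.le)
          (mul_le_mul_of_nonneg_left (Th_le_EE X R (by positivity) h1) (by positivity))

lemma caseL (S : Finset ℕ) (X R y : ℕ) (hy : 0 < y)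
    (h : ∀ N ∈ S, 0 < N ∧ N ≤ X ∧ ∃ p, p.Prime ∧ p ∣ N ∧ y ^ 6 ≤ sm R (p + 1)) :
    (#S : ℝ) ≤ X * (zz X * EE R (1 / 2)) / (y : ℝ) ^ 3 := by
  have hy' : (0 : ℝ) < y := by exact_mod_cast hy
  refine (cover S (Nat.primesLE X) (fun p N => p ∣ N ∧ y ^ 6 ≤ sm R (p + 1))
    (fun p => X / (y : ℝ) ^ 3 * ((sm R (p + 1) : ℝ) ^ (1 / 2 : ℝ) / p)) ?_ ?_).trans ?_
  · intro N hN
    obtain ⟨h1, h2, p, h3, h4, h5⟩ := h N hN
    exact ⟨p, Nat.mem_primesLE.2 ⟨(Nat.le_of_dvd h1 h4).trans h2, h3⟩, h4, h5⟩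
  · intro p _ T hT
    rcases T.eq_empty_or_nonempty with rfl | ⟨n0, hn0⟩
    · simp only [card_empty, Nat.cast_zero]; positivity
    have h1 : ((y : ℝ) ^ 3) ^ 2 ≤ sm R (p + 1) := by
      rw [← pow_mul]; exact_mod_cast (hT n0 hn0).2.2
    have h2 : (y : ℝ) ^ 3 ≤ (sm R (p + 1) : ℝ) ^ (1 / 2 : ℝ) := by
      rw [← Real.sqrt_eq_rpow]; exact Real.le_sqrt_of_sq_le h1
    refine (mult_count T X p fun n hn =>
      ⟨(h n (hT n hn).1).1, (h n (hT n hn).1).2.1, (hT n hn).2.1⟩).trans ?_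
    calc (X : ℝ) / p = X / (y : ℝ) ^ 3 * ((y : ℝ) ^ 3 / p) := by
          rw [div_mul_div_comm, mul_comm ((y : ℝ) ^ 3), mul_div_mul_right _ _ (by positivity)]
      _ ≤ _ := by gcongr
  · rw [← mul_sum, mul_div_right_comm]
    exact mul_le_mul_of_nonneg_left (Th_le_EE X R (by norm_num) le_rfl) (by positivity)

end Pool.Agent.Lib.MP_28260b_nt.Sp
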