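import Pool.Agent.Lib.MP_28260b_nt.Sp.K

/-! The total count in terms of the parameters. -/

namespace Pool.Agent.Lib.MP_28260b_nt.Sp

open Finset ArithmeticFunction ArithmeticFunction.sigma

lemma card_or {S : Finset ℕ} {G P Q : ℕ → Prop} {a b : ℝ} (h : ∀ n ∈ S, G n ∧ (P n ∨ Q n))
    (h1 : ∀ T : Finset ℕ, (∀ n ∈ T, G n ∧ P n) → (#T : ℝ) ≤ a)
    (h2 : ∀ T : Finset ℕ, (∀ n ∈ T, G n ∧ Q n) → (#T : ℝ) ≤ b) : (#S : ℝ) ≤ a + b := by
  classical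
  rw [← card_filter_add_card_filter_not (s := S) P]
  push_cast
  exact add_le_add (h1 _ fun n hn => ⟨(h n (mem_filter.1 hn).1).1, (mem_filter.1 hn).2⟩)
    (h2 _ fun n hn => ⟨(h n (mem_filter.1 hn).1).1,
      (h n (mem_filter.1 hn).1).2.resolve_left (mem_filter.1 hn).2⟩)

lemma card_shift {T : Finset ℕ} {P : ℕ → Prop} {a : ℝ} (l : ℕ) (h : ∀ n ∈ T, P (n + l))
    (h1 : ∀ T : Finset ℕ, (∀ n ∈ T, P n) → (#T : ℝ) ≤ a) : (#T : ℝ) ≤ a := by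
  rw [← card_image_of_injective T (add_left_injective l)]
  refine h1 _ fun N hN => ?_
  obtain ⟨n, hn, rfl⟩ := mem_image.1 hN
  exact h n hn

lemma card_CB (S : Finset ℕ) {y v j : ℕ} (hy : 2 ≤ y) (hv : 2 ≤ v) (hj : j + 1 = 40 * v)
    (h : ∀ N ∈ S, N ≤ 2 * y ^ (40 * v) ∧ CB y v N) : (#S : ℝ) ≤ 9 * (y : ℝ) ^ j := by
  have hy0 : 0 < y := by omega
  have hy' : (2 : ℝ) ≤ y := by exact_mod_cast hy
  have hy1 : (1 : ℝ) ≤ y := by linarith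
  refine (cover S (Ioc 0 (y ^ (2 * v + 1)) ×ˢ
      Icc (-((y ^ (2 * v + 2) : ℕ) : ℤ)) ((y ^ (2 * v + 2) : ℕ) : ℤ))
    (fun i N => i.2 ≠ 0 ∧ (i.1 * σ 1 N : ℤ) = σ 1 i.1 * (N + i.2) ∧
      ∃ D k, N = D * k ∧ D.Coprime k ∧ y ^ (19 * v) < D ∧ D ≤ y ^ (22 * v + 2))
    (fun _ => 3 * (y : ℝ) ^ (31 * v + 6)) ?_ ?_).trans ?_
  · intro N hN
    obtain ⟨-, a, t, h1, h2, h3, h4, h5⟩ := h N hN
    exact ⟨(a, t), mem_product.2 ⟨mem_Ioc.2 ⟨h1, h2⟩, mem_Icc.2 (by dsimp only; omega)⟩, h3, h5⟩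
  · rintro ⟨a, t⟩ hi T hT
    obtain ⟨h1, h2⟩ := mem_product.1 hi
    obtain ⟨h3, h4⟩ := mem_Ioc.1 h1
    have h5 : t.natAbs ≤ y ^ (2 * v + 2) := by have := mem_Icc.1 h2; dsimp only at this; omega
    rcases T.eq_empty_or_nonempty with rfl | ⟨N0, hN0⟩
    · simp only [card_empty, Nat.cast_zero]; positivity
    refine (caseB T (2 * y ^ (40 * v)) (y ^ (19 * v)) (y ^ (22 * v + 2)) a (σ 1 a) t
      (Nat.pos_of_ne_zero (sig_ne h3.ne')) (hT N0 hN0).2.1 (by positivity)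
      fun N hN => ⟨(h N (hT N hN).1).1, (hT N hN).2.2⟩).trans ?_
    have h6 : σ 1 a ^ 2 * t.natAbs ≤ y ^ (10 * v + 6) :=
      calc _ ≤ ((y ^ (2 * v + 1)) ^ 2) ^ 2 * y ^ (2 * v + 2) := Nat.mul_le_mul
            (Nat.pow_le_pow_left ((sig_le a).trans (Nat.pow_le_pow_left h4 2)) 2) h5
        _ = _ := by ring
    have h7 : ((σ 1 a ^ 2 * t.natAbs : ℕ) : ℝ) ≤ (y : ℝ) ^ (10 * v + 6) := by exact_mod_cast h6
    have h8 : ((2 * y ^ (40 * v) : ℕ) : ℝ) * (σ 1 a ^ 2 * t.natAbs : ℕ) / (y ^ (19 * v) : ℕ)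
        ≤ 2 * (y : ℝ) ^ (31 * v + 6) := by
      rw [div_le_iff₀ (by positivity)]
      calc _ ≤ ((2 * y ^ (40 * v) : ℕ) : ℝ) * (y : ℝ) ^ (10 * v + 6) := by gcongr
        _ = _ := by push_cast; ring
    have h9 := pow_le_pow_right₀ hy1 (show 22 * v + 2 ≤ 31 * v + 6 by omega)
    have h10 : ((y ^ (22 * v + 2) : ℕ) : ℝ) = (y : ℝ) ^ (22 * v + 2) := by push_cast; rfl
    linarith
  · rw [sum_const, card_product, Nat.card_Ioc, Int.card_Icc, nsmul_eq_mul]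
    have h1 : (((y ^ (2 * v + 2) : ℕ) : ℤ) + 1 - -((y ^ (2 * v + 2) : ℕ) : ℤ)).toNat
        ≤ 3 * y ^ (2 * v + 2) := by
      have : 0 < y ^ (2 * v + 2) := by positivity
      omega
    have h2 := Nat.mul_le_mul_left (y ^ (2 * v + 1) - 0) h1
    calc _ ≤ (((y ^ (2 * v + 1) - 0) * (3 * y ^ (2 * v + 2)) : ℕ) : ℝ)
          * (3 * (y : ℝ) ^ (31 * v + 6)) :=
          mul_le_mul_of_nonneg_right (Nat.cast_le.2 h2) (by positivity)
      _ = 9 * (y : ℝ) ^ (35 * v + 9) := by rw [Nat.sub_zero]; push_cast; ring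
      _ ≤ _ := mul_le_mul_of_nonneg_left (pow_le_pow_right₀ hy1 (by omega)) (by norm_num)

theorem total (S : Finset ℕ) {y R l v J j A B m w₁ w₂ e₁ e₂ X : ℕ} {η H lam : ℝ} (hy : 2 ≤ y)
    (hl : 0 < l) (hly : l ≤ y) (hJ : J = 40 * v) (hj : j + 1 = J)
    (hg : 252 + 1681 * (5 * (m + 1)) ≤ B) (hAB : B + 6 ≤ A)
    (h₁ : 2 * w₁ + 6 * A = J) (h₂ : w₂ + 3 * A = w₁) (h₃ : e₁ + B = w₁) (h₄ : e₂ + B + 1 = w₂)
    (hX : X = 2 * y ^ J) (hη : 0 ≤ η) (hlg : 1 + 2 * Real.log (2 * X) ≤ y)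
    (hτ : ∀ v : ℕ, v ≤ X ^ 2 → (#v.divisors : ℝ) ≤ y)
    (hH : ∀ w : ℕ, 2 ^ w ≤ X ^ 2 → zz X + w ≤ H) (hHR : H ^ (m + 1) ≤ (R : ℝ) ^ m)
    (hEE : EE R (1 / 2) ≤ y) (hlam1 : zz X ≤ lam) (hlam2 : (Nat.log 2 X : ℝ) + 1 ≤ lam)
    (h : ∀ n ∈ S, 0 < n ∧ n ≤ y ^ J ∧ σ 1 n = σ 1 (n + l) ∧ ¬ Exc l n) :
    (#S : ℝ) ≤ 300 * lam ^ 3 * Real.exp (2 * Th X R η) * ((y : ℝ) ^ J / y) + 12 * lam ^ 2 *
      (y : ℝ) ^ J * (((y : ℝ) ^ (2 * e₁ + e₂)) ^ (-η) * Real.exp (2 * Th X R η) ^ 3) := by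
  have hy0 : 0 < y := by omega
  have hy' : (2 : ℝ) ≤ y := by exact_mod_cast hy
  have hy1 : (1 : ℝ) ≤ y := by linarith
  have hyJ : y ≤ y ^ J := Nat.le_self_pow (by omega) y
  have hX1 : 1 ≤ X := by omega
  have hX' : (X : ℝ) = 2 * (y : ℝ) ^ J := by rw [hX]; push_cast; ring
  have hU : (y : ℝ) ^ J / y = (y : ℝ) ^ j := by rw [← hj, pow_succ]; field_simp
  have hU' : (y : ℝ) ^ J = (y : ℝ) ^ j * y := by rw [← hj, pow_succ]
  have hL : ∀ Z : ℕ, 0 < Z → Z ≤ X → 1 + Real.log Z ≤ lam := fun Z h0 h1 => by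
    have h2 : Real.log Z ≤ Real.log (X + 1 : ℕ) :=
      Real.log_le_log (by exact_mod_cast h0) (by exact_mod_cast h1.trans (Nat.le_succ X))
    have h3 := Real.log_natCast_nonneg (X + 1)
    unfold zz at hlam1
    linarith
  have hlam : 1 ≤ lam := by simpa using hL 1 one_pos hX1
  set E := Real.exp (2 * Th X R η) with hE
  have hE1 : 1 ≤ E := Real.one_le_exp (mul_nonneg zero_le_two (sum_nonneg fun _ _ => by positivity))
  set U := (y : ℝ) ^ j with hUd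
  have hU0 : 0 < U := by positivity
  have b1 : ∀ T : Finset ℕ, (∀ N ∈ T, (0 < N ∧ N ≤ X) ∧ C1 y N) → (#T : ℝ) ≤ 2 * U :=
    fun T hT => (sq_count T X y hy0 fun N hN => ⟨(hT N hN).1.1, (hT N hN).1.2, (hT N hN).2⟩).trans
      (by rw [hX', mul_div_assoc, hU])
  have b2 : ∀ T : Finset ℕ, (∀ N ∈ T, (0 < N ∧ N ≤ X) ∧ CB y v N) → (#T : ℝ) ≤ 9 * U :=
    fun T hT => card_CB T hy (by omega) (hJ ▸ hj) fun N hN =>
      ⟨hJ ▸ hX ▸ (hT N hN).1.2, (hT N hN).2⟩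
  have b3 : ∀ T : Finset ℕ, (∀ N ∈ T, (0 < N ∧ N ≤ X) ∧ CL y R N) → (#T : ℝ) ≤ lam * U :=
    fun T hT => (caseL T X R y hy0 fun N hN =>
      ⟨(hT N hN).1.1, (hT N hN).1.2, (hT N hN).2⟩).trans (by
      rw [div_le_iff₀ (by positivity), hX', hU']
      have := (EE_pos R (1 / 2)).le
      have h2 := zz_nonneg X
      calc _ ≤ 2 * (U * y) * (lam * y) := by gcongr
        _ = lam * U * (2 * y ^ 2) := by ring
        _ ≤ lam * U * (y * y ^ 2) := by gcongr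
        _ = _ := by ring)
  have s1 : ∀ n, 0 < n ∧ n ≤ y ^ J → 0 < n ∧ n ≤ X := fun n hn => by omega
  have s2 : ∀ n, 0 < n ∧ n ≤ y ^ J → 0 < n + l ∧ n + l ≤ X := fun n hn => by omega
  have key : (#S : ℝ) ≤ U + (2 * U + (2 * U + (U * lam + (9 * U + (9 * U + (lam ^ 2 * U +
      (lam * U + (lam * U + lam ^ 2 * (12 * (y : ℝ) ^ J * (((y : ℝ) ^ (2 * e₁ + e₂)) ^ (-η) * E ^ 3)
        + 244 * lam * U * E))))))))) := by
    refine card_or (G := fun n => 0 < n ∧ n ≤ y ^ J) (fun n hn => ⟨⟨(h n hn).1, (h n hn).2.1⟩,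
      classify (R := R) hy hl hly hJ hj hg hAB h₁ h₂ h₃ h₄ (h n hn).1 (h n hn).2.1 (h n hn).2.2.1
        (h n hn).2.2.2⟩) (fun T hT => ?_) fun T hT => ?_
    · have := mult_count T (y ^ j) 1 fun n hn => ⟨(hT n hn).1.1,
        le_pow_of_mul (b := 1) hy0 (by simpa using (hT n hn).2) hj.ge, one_dvd _⟩
      simpa using this
    refine card_or hT (fun T hT => b1 T fun n hn => ⟨s1 n (hT n hn).1, (hT n hn).2⟩) fun T hT => ?_
    refine card_or hT (fun T hT => card_shift l (fun n hn => ⟨s2 n (hT n hn).1, (hT n hn).2⟩) b1)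
      fun T hT => ?_
    refine card_or hT (fun T hT => (caseA T l (y ^ j) fun n hn => (hT n hn).2).trans ?_)
      fun T hT => ?_
    · have := hL (y ^ j) (by positivity)
        (by have := Nat.pow_le_pow_right hy0 (show j ≤ J by omega); omega)
      rw [show ((y ^ j : ℕ) : ℝ) = U by push_cast; rfl] at this ⊢
      gcongr
    refine card_or hT (fun T hT => b2 T fun n hn => ⟨s1 n (hT n hn).1, (hT n hn).2⟩) fun T hT => ?_
    refine card_or hT (fun T hT => card_shift l (fun n hn => ⟨s2 n (hT n hn).1, (hT n hn).2⟩) b2)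
      fun T hT => ?_
    refine card_or hT (fun T hT => (caseC T (y ^ J) X l (y ^ (J + 2)) y
      ((1 + Real.log X) / (y : ℝ) ^ 5)
      (fun G => y ^ (5 * (m + 1)) ≤ G ∧ ∀ r, r.Prime → r ∣ G → R < r) hl
      (by have := Real.log_natCast_nonneg X; positivity)
      (fun G h1 h2 => rough_SS hy0 hH hHR h1.1 h2 h1.2) hτ
      fun n hn => ⟨(hT n hn).1.2, hX ▸ (hT n hn).2⟩).trans ?_) fun T hT => ?_
    · have h1 := hL X hX1 le_rfl
      have h2 : (l : ℝ) ≤ y := by exact_mod_cast hly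
      have h3 := Real.log_natCast_nonneg X
      have h4 : ((y ^ J : ℕ) : ℝ) * l + (y ^ (J + 2) : ℕ) ≤ U * (y : ℝ) ^ 4 := by
        push_cast
        rw [pow_add, hU']
        calc _ ≤ U * y * (y : ℝ) ^ 2 + U * y * (y : ℝ) ^ 2 := by
              gcongr
              nlinarith
          _ = U * (2 * (y : ℝ) ^ 3) := by ring
          _ ≤ U * (y * (y : ℝ) ^ 3) := by gcongr
          _ = _ := by ring
      calc _ ≤ U * (y : ℝ) ^ 4 * (y * (lam / (y : ℝ) ^ 5)) * lam := by gcongr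
        _ = _ := by field_simp
    refine card_or hT (fun T hT => b3 T fun n hn => ⟨s1 n (hT n hn).1, (hT n hn).2⟩) fun T hT => ?_
    refine card_or hT (fun T hT => card_shift l (fun n hn => ⟨s2 n (hT n hn).1, (hT n hn).2⟩) b3)
      fun T hT => ?_
    refine card_shift (P := fun N => N ≤ X ∧ CM y R A w₁ w₂ e₁ e₂ l N) l
      (fun n hn => ⟨(s2 n (hT n hn).1).2, (hT n hn).2⟩) fun T hT => ?_
    refine (caseM T hy hη hX (by omega) h₁ h₂ (by omega) hlg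
      (fun v hv => hτ v (hv.trans (Nat.le_self_pow two_ne_zero X))) hT).trans ?_
    rw [hU, ← hE]
    gcongr
  rw [hU]
  have c1 : U ≤ lam * U := le_mul_of_one_le_left hU0.le hlam
  have c2 : lam * U ≤ lam ^ 2 * U := by
    rw [sq, mul_assoc]; exact le_mul_of_one_le_left (by positivity) hlam
  have c3 : lam ^ 2 * U ≤ lam ^ 3 * U := by
    rw [pow_succ' lam 2, mul_assoc]; exact le_mul_of_one_le_left (by positivity) hlam
  have c4 : lam ^ 3 * U ≤ lam ^ 3 * U * E := le_mul_of_one_le_right (by positivity) hE1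
  refine key.trans ?_
  ring_nf at c1 c2 c3 c4 ⊢
  linarith

end Pool.Agent.Lib.MP_28260b_nt.Sp
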