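import Pool.Agent.Lib.MP_28260b_nt.Sp.T
import Pool.Agent.Lib.SW.Div

/-! Choice of the parameters. -/

namespace Pool.Agent.Lib.MP_28260b_nt.Sp

open Finset Filter Real ArithmeticFunction ArithmeticFunction.sigma

lemma ev {a c : ℝ} (ha : 0 < a) (hc : 0 < c) : ∀ᶠ t : ℝ in atTop, 20 * t ^ 2 ≤ c * exp (a * t) := by
  filter_upwards [eventually_ge_atTop (120 / (c * a ^ 3)), eventually_ge_atTop 0] with t h1 h0
  have h2 := Real.pow_div_factorial_le_exp (a * t) (by positivity) 3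
  rw [div_le_iff₀ (by positivity)] at h1
  have h3 := mul_le_mul_of_nonneg_left h2 hc.le
  have h4 := mul_le_mul_of_nonneg_right h1 (sq_nonneg t)
  norm_num [Nat.factorial] at h3
  nlinarith

lemma log_le_of {a b : ℝ} (ha : 0 < a) (h : a ≤ exp b) : Real.log a ≤ b :=
  (Real.log_le_iff_le_exp ha).2 h

lemma log_mul_le {c u b : ℝ} (hc : 0 < c) (hu : 0 < u) (h : c ≤ 2 ^ 3) (hb : Real.log u ≤ b) :
    Real.log (c * u) ≤ b + 3 := by
  rw [Real.log_mul hc.ne' hu.ne']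
  have h1 := Real.log_le_log hc h
  rw [Real.log_pow] at h1
  have := Real.log_two_lt_d9
  push_cast at h1
  linarith

lemma Th_bound {X R : ℕ} {δ w z : ℝ} (hδ : 0 < δ) (hδ1 : δ ≤ 1 / 4) (hw : w = exp z) (hz : 5 ≤ z)
    (hX0 : 0 < X) (hX : zz X ≤ 8 * exp w) (hR0 : 0 < R) (hR : (R : ℝ) ≤ 2 * exp ((1 + δ) * w))
    (h1 : 20 * z ^ 2 ≤ δ / 4 * exp (δ / (1 + δ) * z)) (h2 : z / w ≤ 1 / 2) :
    Th X R (z / ((1 + δ) ^ 3 * w)) ≤ exp ((1 - δ / 4) * w) * (w + 49) := by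
  have hw0 : 0 < w := hw ▸ exp_pos z
  have hw1 : 1 ≤ w := by have := add_one_le_exp z; linarith
  have hR' : (0 : ℝ) < R := by exact_mod_cast hR0
  have hθ : z / ((1 + δ) ^ 3 * w) * (1 + δ) = z / ((1 + δ) ^ 2 * w) := by field_simp
  have hθ1 : z / ((1 + δ) ^ 2 * w) ≤ 1 / 2 := by
    refine le_trans (div_le_div_of_nonneg_left (by linarith) hw0 ?_) h2
    exact le_mul_of_one_le_left hw0.le (one_le_pow₀ (by linarith))
  have hθ0 : 0 ≤ z / ((1 + δ) ^ 2 * w) := by positivity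
  refine (Th_le X R (T := exp ((1 - δ / 4) * w)) (exp_pos _) hδ.le (by positivity)
    (hθ ▸ hθ1)).trans ?_
  rw [hθ]
  have a1 : Real.log (1 + Real.log X) ≤ w + 3 := by
    have h3 : Real.log X ≤ Real.log (X + 1 : ℕ) :=
      Real.log_le_log (by exact_mod_cast hX0) (by exact_mod_cast Nat.le_succ X)
    have h4 := Real.log_natCast_nonneg X
    unfold zz at hX
    refine (Real.log_le_log (by linarith) (show _ ≤ 8 * exp w by linarith)).trans ?_
    exact log_mul_le (by norm_num) (exp_pos _) (by norm_num) (Real.log_exp w).le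
  have a2 : (R : ℝ) ^ (z / ((1 + δ) ^ 2 * w)) ≤ 2 * exp (z / (1 + δ)) := by
    refine (Real.rpow_le_rpow hR'.le hR hθ0).trans ?_
    rw [Real.mul_rpow (by norm_num) (exp_pos _).le, ← Real.exp_mul]
    refine mul_le_mul ?_ (le_of_eq ?_) (exp_pos _).le (by norm_num)
    · simpa using Real.rpow_le_rpow_of_exponent_le one_le_two
        (show z / ((1 + δ) ^ 2 * w) ≤ 1 by linarith)
    · congr 1; field_simp
  have a3 : Real.log (1 + Real.log R) ≤ z + 3 := by
    have h3 := (Real.log_le_log hR' hR).trans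
      (log_mul_le two_pos (exp_pos _) (by norm_num) (Real.log_exp _).le)
    have h4 := Real.log_natCast_nonneg R
    refine (Real.log_le_log (by linarith) (show _ ≤ 8 * w by nlinarith)).trans ?_
    exact log_mul_le (by norm_num) hw0 (by norm_num) (by rw [hw, Real.log_exp])
  have a4 : EE R (z / ((1 + δ) ^ 2 * w)) ≤ exp (δ / 4 * w) := by
    refine Real.exp_le_exp.2 ?_
    have h3 : 0 ≤ Real.log (1 + Real.log R) :=
      Real.log_nonneg (by have := Real.log_natCast_nonneg R; linarith)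
    have e : w = exp (δ / (1 + δ) * z) * exp (z / (1 + δ)) := by
      rw [← Real.exp_add, hw]; congr 1; field_simp; ring
    calc _ ≤ 4 * (2 * exp (z / (1 + δ))) * (z + 3 + 38) := by gcongr
      _ = 8 * (z + 41) * exp (z / (1 + δ)) := by ring
      _ ≤ δ / 4 * exp (δ / (1 + δ) * z) * exp (z / (1 + δ)) :=
          mul_le_mul_of_nonneg_right (by nlinarith) (exp_pos _).le
      _ = _ := by rw [mul_assoc, ← e]
  have a5 : exp ((1 - δ / 4) * w) ^ (-δ) * (zz X * EE R (z / ((1 + δ) ^ 2 * w)))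
      ≤ 8 * exp ((1 - δ / 4) * w) := by
    have := (EE_pos R (z / ((1 + δ) ^ 2 * w))).le
    calc _ ≤ exp ((1 - δ / 4) * w) ^ (-δ) * (8 * exp w * exp (δ / 4 * w)) := by gcongr
      _ = 8 * exp ((1 - δ / 4) * w * (-δ) + w + δ / 4 * w) := by
          rw [← Real.exp_mul, Real.exp_add, Real.exp_add]; ring
      _ ≤ _ := by
          refine mul_le_mul_of_nonneg_left (Real.exp_le_exp.2 ?_) (by norm_num)
          nlinarith [mul_pos hδ hw0, mul_le_mul_of_nonneg_left hδ1 (mul_pos hδ hw0).le]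
  have a6 := mul_le_mul_of_nonneg_left a1 (exp_pos ((1 - δ / 4) * w)).le
  nlinarith

lemma EE_bound {R : ℕ} {δ w c : ℝ} (hδ1 : δ ≤ 1 / 4) (hw : 100 ≤ w) (hR0 : 0 < R)
    (hR : (R : ℝ) ≤ 2 * exp ((1 + δ) * w)) (h1 : 20 * w ^ 2 ≤ c * exp (1 / 4 * w)) :
    EE R (1 / 2) ≤ exp (c * exp w) := by
  have hR' : (0 : ℝ) < R := by exact_mod_cast hR0
  have a0 : (R : ℝ) ≤ exp (3 / 2 * w) := by
    have h2 : (2 : ℝ) ≤ exp (1 / 4 * w) := by have := add_one_le_exp (1 / 4 * w); linarith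
    calc _ ≤ exp (1 / 4 * w) * exp (5 / 4 * w) := hR.trans (mul_le_mul h2
          (Real.exp_le_exp.2 (by nlinarith)) (exp_pos _).le (exp_pos _).le)
      _ = _ := by rw [← Real.exp_add]; congr 1; ring
  have a1 : (R : ℝ) ^ (1 / 2 : ℝ) ≤ exp (3 / 4 * w) := by
    refine (Real.rpow_le_rpow hR'.le a0 (by norm_num)).trans (le_of_eq ?_)
    rw [← Real.exp_mul]; congr 1; ring
  have a2 := log_le_of hR' a0
  have a3 := Real.log_natCast_nonneg R
  have a4 := Real.log_le_sub_one_of_pos (show 0 < 1 + Real.log R by linarith)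
  have a5 : 0 ≤ Real.log (1 + Real.log R) := Real.log_nonneg (by linarith)
  refine Real.exp_le_exp.2 ?_
  calc _ ≤ 4 * exp (3 / 4 * w) * (3 / 2 * w + 38) := by gcongr; linarith
    _ = 4 * (3 / 2 * w + 38) * exp (3 / 4 * w) := by ring
    _ ≤ c * exp (1 / 4 * w) * exp (3 / 4 * w) :=
        mul_le_mul_of_nonneg_right (by nlinarith) (exp_pos _).le
    _ = _ := by rw [mul_assoc, ← Real.exp_add]; congr 2; ring

lemma finish {S x y u w z τ E ε δ c lJ : ℝ} {J e : ℕ} (hu : u = exp w) (hw : 100 ≤ w) (hz : 1 ≤ z)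
    (hδ : 0 < δ) (hδ1 : δ ≤ 1 / 36) (hε : 36 * δ ≤ ε) (hx : 0 < x) (hyJ : y ^ J ≤ 2 * x)
    (hlJ : 0 < lJ) (hy : exp (lJ * u) ≤ y) (he : 3 / 2 - 13 * δ ≤ lJ * e) (hE0 : 0 ≤ E)
    (hE : E ≤ exp (2 * τ)) (hτ : τ = exp ((1 - δ / 4) * w) * (w + 49))
    (hc : 20 * w ^ 2 ≤ c * exp (δ / 4 * w)) (hc1 : c ≤ ε / 2) (hc2 : c ≤ lJ / 2)
    (hzw : z / w ≤ lJ / 3)
    (h : S ≤ 300 * (8 * u) ^ 3 * E * (y ^ J / y) + 12 * (8 * u) ^ 2 * y ^ J *
      ((y ^ e) ^ (-(z / ((1 + δ) ^ 3 * w))) * E ^ 3)) :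
    S ≤ x * exp (-((3 / 2 - ε) * (u * z / w))) := by
  have hw0 : 0 < w := by linarith
  have hu0 : 0 < u := hu ▸ exp_pos w
  have hu1 : 1 ≤ u := by have := add_one_le_exp w; linarith
  have hy0 : 0 < y := (exp_pos _).trans_le hy
  have hT1 : 1 ≤ exp ((1 - δ / 4) * w) := Real.one_le_exp (by nlinarith)
  have hτ0 : 0 ≤ τ := by rw [hτ]; positivity
  have a1 : 20 + 3 * w + 6 * τ ≤ c * (u / w) := by
    have e1 : u = exp (δ / 4 * w) * exp ((1 - δ / 4) * w) := by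
      rw [← Real.exp_add, hu]; congr 1; ring
    rw [← mul_div_assoc, le_div_iff₀ hw0, e1, ← mul_assoc]
    refine le_trans ?_ (mul_le_mul_of_nonneg_right hc (exp_pos _).le)
    have h3 : 20 + 3 * w ≤ exp ((1 - δ / 4) * w) * (20 + 3 * w) :=
      le_mul_of_one_le_left (by linarith) hT1
    have h4 : 20 + 3 * w + 6 * τ ≤ exp ((1 - δ / 4) * w) * (20 * w) := by rw [hτ]; nlinarith
    nlinarith
  have hc0 : 0 ≤ c := by
    by_contra h3
    have : c * (u / w) ≤ 0 := mul_nonpos_of_nonpos_of_nonneg (by linarith) (by positivity)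
    linarith
  set L := u * z / w with hL
  have hL1 : u / w ≤ L := div_le_div_of_nonneg_right (le_mul_of_one_le_right hu0.le hz) hw0.le
  have hL2 : L ≤ u * (lJ / 3) := by
    rw [hL, mul_div_assoc]; exact mul_le_mul_of_nonneg_left hzw hu0.le
  have hL0 : 0 ≤ L := le_trans (by positivity) hL1
  have huw : u / w ≤ u := div_le_self hu0.le (by linarith)
  have a2 : 614400 * u ^ 3 ≤ exp (20 + 3 * w) := by
    have h3 : (2 : ℝ) ≤ exp 1 := by have := add_one_le_exp 1; linarith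
    have h4 := pow_le_pow_left₀ (by norm_num) h3 20
    rw [← Real.exp_nat_mul] at h4
    rw [Real.exp_add, show (3 : ℝ) * w = (3 : ℕ) * w by norm_num, Real.exp_nat_mul, ← hu]
    refine mul_le_mul_of_nonneg_right (le_trans (by norm_num) (h4.trans (le_of_eq ?_)))
      (by positivity)
    norm_num
  have a3 : 300 * (8 * u) ^ 3 * E * (y ^ J / y) ≤ x / 2 * exp (-((3 / 2 - ε) * L)) := by
    have h3 : y ^ J / y ≤ 2 * x * exp (-(lJ * u)) := by
      rw [Real.exp_neg, ← div_eq_mul_inv]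
      gcongr
    calc _ ≤ 300 * (8 * u) ^ 3 * exp (2 * τ) * (2 * x * exp (-(lJ * u))) := by gcongr
      _ = x / 2 * (614400 * u ^ 3 * exp (2 * τ) * exp (-(lJ * u))) := by ring
      _ ≤ x / 2 * (exp (20 + 3 * w) * exp (2 * τ) * exp (-(lJ * u))) := by gcongr
      _ ≤ _ := by
          rw [← Real.exp_add, ← Real.exp_add]
          refine mul_le_mul_of_nonneg_left (Real.exp_le_exp.2 ?_) (by positivity)
          have h5 : c * (u / w) ≤ lJ / 2 * u := mul_le_mul hc2 huw (by positivity) (by positivity)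
          nlinarith
  have a4 : (y ^ e) ^ (-(z / ((1 + δ) ^ 3 * w))) ≤ exp (-((3 / 2 - 18 * δ) * L)) := by
    have h3 : exp ((3 / 2 - 13 * δ) * u) ≤ y ^ e := by
      refine le_trans (Real.exp_le_exp.2 ?_) ((Real.exp_nat_mul _ e).le.trans
        (pow_le_pow_left₀ (exp_pos _).le hy e))
      nlinarith
    refine (Real.rpow_le_rpow_of_nonpos (exp_pos _) h3 (neg_nonpos.2 (by positivity))).trans ?_
    rw [← Real.exp_mul]
    refine Real.exp_le_exp.2 ?_
    have e1 : (3 / 2 - 13 * δ) * u * -(z / ((1 + δ) ^ 3 * w))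
        = -((3 / 2 - 13 * δ) / (1 + δ) ^ 3 * L) := by rw [hL]; field_simp
    rw [e1, neg_le_neg_iff]
    refine mul_le_mul_of_nonneg_right ?_ hL0
    rw [le_div_iff₀ (by positivity)]
    have h4 : (1 + δ) ^ 3 ≤ 1 + 10 / 3 * δ := by nlinarith [mul_pos hδ hδ]
    nlinarith [mul_le_mul_of_nonneg_left h4 (show 0 ≤ 3 / 2 - 18 * δ by linarith)]
  have a5 : 12 * (8 * u) ^ 2 * y ^ J * ((y ^ e) ^ (-(z / ((1 + δ) ^ 3 * w))) * E ^ 3)
      ≤ x / 2 * exp (-((3 / 2 - ε) * L)) := by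
    have h3 : 3072 * u ^ 2 ≤ exp (20 + 3 * w) := by
      refine le_trans ?_ a2
      have := pow_le_pow_right₀ hu1 (show 2 ≤ 3 by norm_num)
      nlinarith [sq_nonneg u]
    calc _ ≤ 12 * (8 * u) ^ 2 * (2 * x) * (exp (-((3 / 2 - 18 * δ) * L)) * exp (2 * τ) ^ 3) := by
          gcongr
      _ = x / 2 * (3072 * u ^ 2 * exp (2 * τ) ^ 3 * exp (-((3 / 2 - 18 * δ) * L))) := by ring
      _ ≤ x / 2 * (exp (20 + 3 * w) * exp (2 * τ) ^ 3 * exp (-((3 / 2 - 18 * δ) * L))) := by gcongr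
      _ ≤ _ := by
          rw [← Real.exp_nat_mul, ← Real.exp_add, ← Real.exp_add]
          refine mul_le_mul_of_nonneg_left (Real.exp_le_exp.2 ?_) (by positivity)
          have h5 : c * (u / w) ≤ ε / 2 * L := mul_le_mul hc1 hL1 (by positivity) (by linarith)
          push_cast
          nlinarith
  linarith

end Pool.Agent.Lib.MP_28260b_nt.Sp
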